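import Mathlib
set_option autoImplicit false
open Ordinal Cardinal Set Order

/-- an injection of the ordinals below `a` into the ordinals below `c.ord` -/
theorem W590.frA_inj (a : Ordinal.{0}) (c : Cardinal.{0}) (h : a.card ≤ c) :
    ∃ s : Ordinal.{0} → Ordinal.{0}, (∀ x < a, s x < c.ord) ∧
      (∀ x < a, ∀ y < a, s x = s y → x = y) := by
  classical
  have h1 : Cardinal.mk a.ToType ≤ Cardinal.mk c.ord.ToType := by
    rw [Cardinal.mk_ord_toType, Cardinal.mk_toType]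
    exact h
  obtain ⟨e⟩ := h1
  refine ⟨fun x => if hx : x < a then (Ordinal.ToType.mk.symm (e (Ordinal.ToType.mk ⟨x, hx⟩))).1
    else 0, ?_, ?_⟩
  · intro x hx
    simp only [dif_pos hx]
    exact (Ordinal.ToType.mk.symm (e (Ordinal.ToType.mk ⟨x, hx⟩))).2
  · intro x hx y hy hxy
    simp only [dif_pos hx, dif_pos hy] at hxy
    have h2 := Ordinal.ToType.mk.symm.injective (Subtype.ext hxy)
    have h3 := Ordinal.ToType.mk.injective (e.injective h2)
    exact congrArg Subtype.val h3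

/-- piece F3 -/
theorem W590.fr_card_rho (δ κ : Cardinal.{0}) (U : Ultrafilter Ordinal.{0})
    (hδ0 : Cardinal.aleph0 < δ) (hδU : Set.Iio δ.ord ∈ U)
    (hnp : ∀ β : Ordinal.{0}, ({β} : Set Ordinal.{0}) ∉ U)
    (hcomp : ∀ (ι : Type) (s : ι → Set Ordinal.{0}), Cardinal.mk ι < δ → (∀ i, s i ∈ U) → (⋂ i, s i) ∈ U)
    (hnorm : ∀ f : Ordinal.{0} → Ordinal.{0}, {β | f β < β} ∈ U → ∃ γ, {β | f β = γ} ∈ U)
    (hδκ : δ < κ) (hpow : ∀ μ : Cardinal.{0}, μ < κ → μ ^ δ < κ)
    (v : Ordinal.{0} → Cardinal.{0}) (hv : ∀ i < δ.ord, v i < κ)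
    (hvlim : ∀ i < δ.ord, Order.IsSuccLimit i → ∀ x < (v i).ord, ∃ k < i, x < (v k).ord)
    (ρ : (Ordinal.{0} → Ordinal.{0}) → Ordinal.{0})
    (hρ : ∀ h h' : Ordinal.{0} → Ordinal.{0},
          ρ h < ρ h' ↔ ∀ᶠ i in (U : Filter Ordinal.{0}), h i < h' i)
    (hρ' : ∀ h : Ordinal.{0} → Ordinal.{0}, ∀ β < ρ h, ∃ h' : Ordinal.{0} → Ordinal.{0}, ρ h' = β)
    (h : Ordinal.{0} → Ordinal.{0}) (hh : ∀ᶠ i in (U : Filter Ordinal.{0}), (h i).card ≤ v i) :
    ρ h < (Order.succ κ).ord := by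
  classical
  have hκ0 : Cardinal.aleph0 ≤ κ := (hδ0.trans hδκ).le
  -- almost all ordinals are limit ordinals
  have hlim : {i : Ordinal.{0} | Order.IsSuccLimit i} ∈ U := by
    by_contra hc
    have h1 : {i : Ordinal.{0} | Order.IsSuccLimit i}ᶜ ∈ U := Ultrafilter.compl_mem_iff_notMem.2 hc
    have h2 : ({0} : Set Ordinal.{0})ᶜ ∈ U := Ultrafilter.compl_mem_iff_notMem.2 (hnp 0)
    have h3 : ∀ i : Ordinal.{0}, ∃ j : Ordinal.{0},
        (i ∈ {i : Ordinal.{0} | Order.IsSuccLimit i}ᶜ ∩ ({0} : Set Ordinal.{0})ᶜ →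
          i = Order.succ j) := by
      intro i
      by_cases hi : i ∈ {i : Ordinal.{0} | Order.IsSuccLimit i}ᶜ ∩ ({0} : Set Ordinal.{0})ᶜ
      · obtain ⟨hi1, hi2⟩ := hi
        have hi1' : ¬ Order.IsSuccLimit i := hi1
        have hi2' : i ≠ 0 := hi2
        have hmin : ¬ IsMin i := by
          intro hm
          exact hi2' (by simpa using hm.eq_bot)
        have hpre : ¬ Order.IsSuccPrelimit i := fun hp => hi1' ⟨hmin, hp⟩
        rw [Order.not_isSuccPrelimit_iff'] at hpre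
        obtain ⟨j, hj⟩ := hpre
        exact ⟨j, fun _ => hj.symm⟩
      · exact ⟨0, fun h => absurd h hi⟩
    choose p hp using h3
    have h4 : {β | p β < β} ∈ U := by
      refine Filter.mem_of_superset (Filter.inter_mem h1 h2) ?_
      intro β hβ
      have := hp β hβ
      show p β < β
      conv_rhs => rw [this]
      exact Order.lt_succ _
    obtain ⟨γ, hγ⟩ := hnorm p h4
    apply hnp (Order.succ γ)
    refine Filter.mem_of_superset (Filter.inter_mem (Filter.inter_mem h1 h2) hγ) ?_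
    rintro β ⟨hβ, hβγ⟩
    have h5 := hp β hβ
    have h6 : p β = γ := hβγ
    rw [h6] at h5
    exact h5
  -- choices
  have hex : ∀ x : (ρ h).ToType, ∃ h' : Ordinal.{0} → Ordinal.{0},
      ρ h' = (Ordinal.ToType.mk.symm x).1 := fun x => hρ' h _ (Ordinal.ToType.mk.symm x).2
  choose g hg using hex
  have hgh : ∀ x, ∀ᶠ i in (U : Filter Ordinal.{0}), g x i < h i := by
    intro x
    rw [← hρ, hg x]
    exact (Ordinal.ToType.mk.symm x).2
  have hs : ∀ i : Ordinal.{0}, ∃ s : Ordinal.{0} → Ordinal.{0}, (h i).card ≤ v i →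
      (∀ x < h i, s x < (v i).ord) ∧ (∀ x < h i, ∀ y < h i, s x = s y → x = y) := by
    intro i
    by_cases hi : (h i).card ≤ v i
    · obtain ⟨s, hs⟩ := W590.frA_inj (h i) (v i) hi
      exact ⟨s, fun _ => hs⟩
    · exact ⟨id, fun h => absurd h hi⟩
  choose s hs using hs
  -- the good set of `x`
  have hgood : ∀ x, ∀ᶠ i in (U : Filter Ordinal.{0}),
      (h i).card ≤ v i ∧ g x i < h i ∧ i < δ.ord ∧ Order.IsSuccLimit i := by
    intro x
    filter_upwards [hh, hgh x, hδU, hlim] with i h1 h2 h3 h4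
    exact ⟨h1, h2, h3, h4⟩
  have hk : ∀ (x : (ρ h).ToType) (i : Ordinal.{0}), ∃ k : Ordinal.{0},
      ((h i).card ≤ v i ∧ g x i < h i ∧ i < δ.ord ∧ Order.IsSuccLimit i) →
        k < i ∧ s i (g x i) < (v k).ord := by
    intro x i
    by_cases hi : (h i).card ≤ v i ∧ g x i < h i ∧ i < δ.ord ∧ Order.IsSuccLimit i
    · obtain ⟨h1, h2, h3, h4⟩ := hi
      obtain ⟨k, hk1, hk2⟩ := hvlim i h3 h4 _ ((hs i h1).1 _ h2)
      exact ⟨k, fun _ => ⟨hk1, hk2⟩⟩
    · exact ⟨0, fun h => absurd h hi⟩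
  choose k hk using hk
  have hγ : ∀ x, ∃ γ : Ordinal.{0}, γ < δ.ord ∧ ∀ᶠ i in (U : Filter Ordinal.{0}),
      s i (g x i) < (v γ).ord := by
    intro x
    have h1 : {β | k x β < β} ∈ U := by
      refine Filter.mem_of_superset (hgood x) ?_
      intro β hβ
      exact (hk x β hβ).1
    obtain ⟨γ, hγ⟩ := hnorm (k x) h1
    have h2 : ∀ᶠ i in (U : Filter Ordinal.{0}), γ < δ.ord ∧ s i (g x i) < (v γ).ord := by
      filter_upwards [hgood x, hγ] with i hi1 hi2
      have h3 := hk x i hi1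
      have h4 : k x i = γ := hi2
      rw [h4] at h3
      exact ⟨h3.1.trans hi1.2.2.1, h3.2⟩
    obtain ⟨i, hi⟩ := h2.exists
    exact ⟨γ, hi.1, h2.mono fun _ h => h.2⟩
  choose γ hγδ hγ using hγ
  -- injectivity
  have hinj : ∀ x y : (ρ h).ToType, (∀ᶠ i in (U : Filter Ordinal.{0}),
      s i (g x i) = s i (g y i)) → x = y := by
    intro x y hxy
    have h1 : ∀ᶠ i in (U : Filter Ordinal.{0}), g x i = g y i := by
      filter_upwards [hgood x, hgood y, hxy] with i h1 h2 h3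
      exact (hs i h1.1).2 _ h1.2.1 _ h2.2.1 h3
    have h2 : ρ (g x) = ρ (g y) := by
      rcases lt_trichotomy (ρ (g x)) (ρ (g y)) with h3 | h3 | h3
      · rw [hρ] at h3
        obtain ⟨i, hi1, hi2⟩ := (h1.and h3).exists
        rw [hi1] at hi2
        exact absurd hi2 (lt_irrefl _)
      · exact h3
      · rw [hρ] at h3
        obtain ⟨i, hi1, hi2⟩ := (h1.and h3).exists
        rw [hi1] at hi2
        exact absurd hi2 (lt_irrefl _)
    rw [hg, hg] at h2
    exact Ordinal.ToType.mk.symm.injective (Subtype.ext h2)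
  -- counting
  rw [Cardinal.lt_ord, Order.lt_succ_iff]
  have hcount : ∀ y : δ.ord.ToType,
      Cardinal.mk {x : (ρ h).ToType // Ordinal.ToType.mk ⟨γ x, hγδ x⟩ = y} ≤ κ := by
    intro y
    set c := v (Ordinal.ToType.mk.symm y).1 with hc
    have hcκ : c < κ := hv _ (Ordinal.ToType.mk.symm y).2
    have h1 : Cardinal.mk (δ.ord.ToType → Option c.ord.ToType) ≤ κ := by
      rw [← Cardinal.power_def, Cardinal.mk_ord_toType, Cardinal.mk_option, Cardinal.mk_ord_toType]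
      exact (hpow _ (Cardinal.add_lt_of_lt hκ0 hcκ (Cardinal.one_lt_aleph0.trans_le hκ0))).le
    refine le_trans ?_ h1
    refine Cardinal.mk_le_of_injective (f := fun x => fun j : δ.ord.ToType =>
      if hj : s (Ordinal.ToType.mk.symm j).1 (g x.1 (Ordinal.ToType.mk.symm j).1) < c.ord then
        some (Ordinal.ToType.mk ⟨_, hj⟩) else none) ?_
    rintro ⟨x, hx⟩ ⟨x', hx'⟩ hxx
    apply Subtype.ext
    apply hinj
    have e1 : γ x = (Ordinal.ToType.mk.symm y).1 := by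
      rw [← hx]; simp
    have e2 : γ x' = (Ordinal.ToType.mk.symm y).1 := by
      rw [← hx']; simp
    have g1 := hγ x
    have g2 := hγ x'
    rw [e1] at g1
    rw [e2] at g2
    filter_upwards [g1, g2, hδU] with i h1 h2 h3
    have h4 := congrFun hxx (Ordinal.ToType.mk ⟨i, h3⟩)
    have h5 : (Ordinal.ToType.mk.symm (Ordinal.ToType.mk (⟨i, h3⟩ : Set.Iio δ.ord))).1 = i := by
      simp
    simp only [OrderIso.symm_apply_apply] at h4
    rw [dif_pos h1, dif_pos h2] at h4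
    have h6 := Ordinal.ToType.mk.injective (Option.some.inj h4)
    exact congrArg Subtype.val h6
  have h2 : Cardinal.mk (ρ h).ToType =
      Cardinal.mk (Σ y : δ.ord.ToType,
        {x : (ρ h).ToType // Ordinal.ToType.mk ⟨γ x, hγδ x⟩ = y}) :=
    Cardinal.mk_congr (Equiv.sigmaFiberEquiv _).symm
  rw [← Cardinal.mk_toType, h2, Cardinal.mk_sigma]
  refine (Cardinal.sum_le_sum _ (fun _ => κ) hcount).trans ?_
  rw [Cardinal.sum_const', Cardinal.mk_ord_toType]
  exact (mul_le_mul' hδκ.le le_rfl).trans (Cardinal.mul_eq_self hκ0).le
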