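import Mathlib

set_option autoImplicit false

open Ordinal Cardinal Set Order

theorem W590.fr_exists_u (δ κ : Cardinal.{0}) (hκ : 0 < κ) (hcof : κ.ord.cof = δ) :
    ∃ u : Ordinal.{0} → Ordinal.{0}, (∀ j, u j < κ.ord) ∧
      ∀ a < κ.ord, ∃ j < δ.ord, a ≤ u j := by
  classical
  obtain ⟨s, hs, hs'⟩ := Order.exists_cof_eq (α := κ.ord.ToType)
  have hcard : #s = #δ.ord.ToType := by
    rw [hs', Ordinal.cof_toType, hcof, Cardinal.mk_ord_toType]
  obtain ⟨e⟩ := Cardinal.eq.1 hcard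
  have hpos : (0 : Ordinal.{0}) < κ.ord := by
    rw [Cardinal.lt_ord]; simpa using hκ
  refine ⟨fun j => if h : j < δ.ord then
    (ToType.toOrd (e.symm (ToType.mk ⟨j, h⟩)).1).1 else 0, ?_, ?_⟩
  · intro j
    dsimp only
    split_ifs with h
    · exact (ToType.toOrd (e.symm (ToType.mk ⟨j, h⟩)).1).2
    · exact hpos
  · intro a ha
    obtain ⟨b, hb, hab⟩ := hs (ToType.mk ⟨a, ha⟩)
    refine ⟨(ToType.toOrd (e ⟨b, hb⟩)).1, (ToType.toOrd (e ⟨b, hb⟩)).2, ?_⟩
    have h1 : (ToType.toOrd (e ⟨b, hb⟩)).1 < δ.ord := (ToType.toOrd (e ⟨b, hb⟩)).2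
    change a ≤ (if h : (ToType.toOrd (e ⟨b, hb⟩)).1 < δ.ord then
      (ToType.toOrd (e.symm (ToType.mk ⟨(ToType.toOrd (e ⟨b, hb⟩)).1, h⟩)).1).1 else 0)
    rw [dif_pos h1]
    have h2 : (ToType.mk ⟨(ToType.toOrd (e ⟨b, hb⟩)).1, h1⟩ : δ.ord.ToType) = e ⟨b, hb⟩ :=
      ToType.mk.apply_symm_apply _
    rw [h2, Equiv.symm_apply_apply]
    have h3 := (ToType.mk.symm : κ.ord.ToType ≃o Set.Iio κ.ord).monotone hab
    rw [OrderIso.symm_apply_apply] at h3
    exact h3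

/-- piece F4 -/
theorem W590.fr_exists_v (δ κ : Cardinal.{0}) (hδ0 : Cardinal.aleph0 < δ) (hδκ : δ < κ)
    (hcof : κ.ord.cof = δ) (ν₀ : Cardinal.{0}) (hν : ν₀ < κ) :
    ∃ v : Ordinal.{0} → Cardinal.{0}, (∀ i, ν₀ ≤ v i) ∧ (∀ i j, i ≤ j → v i ≤ v j) ∧
      (∀ i < δ.ord, v i < κ) ∧
      (∀ i < δ.ord, Order.IsSuccLimit i → ∀ x < (v i).ord, ∃ k < i, x < (v k).ord) ∧
      (∀ ν < κ, ∃ i < δ.ord, ν < v i) := by
  obtain ⟨u, hu1, hu2⟩ := W590.fr_exists_u δ κ (zero_le.trans_lt hδκ) hcof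
  set S : Ordinal.{0} → Set Cardinal.{0} := fun i => (fun j => (u j).card) '' Iio i with hS
  have hSb : ∀ i, BddAbove (S i) := by
    intro i
    refine ⟨κ, ?_⟩
    rintro c ⟨j, _, rfl⟩
    exact (Cardinal.lt_ord.1 (hu1 j)).le
  have hmem : ∀ i j, j < i → (u j).card ≤ max ν₀ (sSup (S i)) := by
    intro i j hj
    exact (le_csSup (hSb i) ⟨j, hj, rfl⟩).trans (le_max_right _ _)
  have hδl : Order.IsSuccLimit δ.ord := Cardinal.isSuccLimit_ord hδ0.le
  refine ⟨fun i => max ν₀ (sSup (S i)), fun i => le_max_left _ _, ?_, ?_, ?_, ?_⟩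
  · intro i j hij
    exact max_le_max le_rfl (csSup_le_csSup' (hSb j) (image_mono (Iio_subset_Iio hij)))
  · intro i hi
    refine max_lt hν ?_
    apply Cardinal.sSup_lt_of_lt_cof_ord
    · have h1 : #(S i) ≤ Cardinal.lift.{1} i.card := by
        rw [← Cardinal.mk_Iio_ordinal]
        exact Cardinal.mk_image_le
      refine h1.trans_lt ?_
      rw [← Cardinal.lift_ord, ← Ordinal.lift_cof, Cardinal.lift_lt, hcof]
      exact Cardinal.lt_ord.1 hi
    · rintro c ⟨j, _, rfl⟩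
      exact Cardinal.lt_ord.1 (hu1 j)
  · intro i _ hi x hx
    dsimp only at hx ⊢
    rw [Cardinal.lt_ord, lt_max_iff] at hx
    rcases hx with hx | hx
    · refine ⟨0, ?_, ?_⟩
      · exact hi.bot_lt
      · rw [Cardinal.lt_ord]
        exact hx.trans_le (le_max_left _ _)
    · obtain ⟨c, ⟨j, hj, rfl⟩, hc⟩ := exists_lt_of_lt_csSup' hx
      refine ⟨Order.succ j, hi.succ_lt hj, ?_⟩
      rw [Cardinal.lt_ord]
      exact hc.trans_le (hmem _ _ (Order.lt_succ j))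
  · intro ν hν'
    have hsucc : Order.succ ν < κ := by
      by_contra h
      push Not at h
      have h1 : Order.succ ν = κ := le_antisymm (Order.succ_le_of_lt hν') h
      rcases le_or_gt Cardinal.aleph0 ν with h2 | h2
      · have h3 := (Cardinal.isRegular_succ h2).cof_ord
        rw [h1, hcof] at h3
        exact absurd h3 hδκ.ne
      · have h3 : Order.succ ν < Cardinal.aleph0 := Cardinal.isSuccLimit_aleph0.succ_lt h2
        rw [h1] at h3
        exact absurd (h3.trans hδ0) (not_lt.2 hδκ.le)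
    obtain ⟨j, hj, hj2⟩ := hu2 (Order.succ ν).ord (Cardinal.ord_lt_ord.2 hsucc)
    refine ⟨Order.succ j, hδl.succ_lt hj, ?_⟩
    refine (Order.lt_succ ν).trans_le ?_
    refine le_trans ?_ (hmem _ _ (Order.lt_succ j))
    have := Ordinal.card_le_card hj2
    rwa [Cardinal.card_ord] at this
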