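import Mathlib
set_option autoImplicit false
open Ordinal Cardinal Set Order

namespace W590F

/-- `ξ` is a limit point of `C β`. -/
def Lp (C : Ordinal.{0} → Set Ordinal.{0}) (β ξ : Ordinal.{0}) : Prop :=
  ξ ≠ 0 ∧ ∀ γ < ξ, ∃ ζ ∈ C β, γ < ζ ∧ ζ < ξ

theorem Lp.isSuccLimit {C : Ordinal.{0} → Set Ordinal.{0}} {β ξ : Ordinal.{0}} (h : Lp C β ξ) :
    IsSuccLimit ξ := by
  rcases Ordinal.zero_or_succ_or_isSuccLimit ξ with h0 | ⟨t, ht⟩ | hl
  · exact absurd h0 h.1
  · exfalso
    obtain ⟨ζ, _, h1, h2⟩ := h.2 t (by rw [← ht]; exact lt_succ t)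
    rw [← ht] at h2
    exact absurd (Order.lt_succ_iff.mp h2) (not_le.mpr h1)
  · exact hl

inductive InD (C : Ordinal.{0} → Set Ordinal.{0}) (ν : Cardinal.{1}) :
    Ordinal.{0} → Ordinal.{0} → Prop
  | self (α β x : Ordinal.{0}) : β = succ α → x = α → InD C ν β x
  | lift (α β x : Ordinal.{0}) : β = succ α → InD C ν α x → InD C ν β x
  | lim (β c x : Ordinal.{0}) : IsSuccLimit β → c ∈ C β → #(↥(C β ∩ Iio c)) < ν →
      (∀ c' c'', c' ∈ C β → c'' ∈ C β → c' < c'' → c'' ≤ c →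
        (∀ ξ, c' < ξ → ξ ≤ c → ¬ Lp C β ξ) → InD C ν c'' c') →
      InD C ν c x → InD C ν β x

/-- good points of `C β`. -/
def Good (C : Ordinal.{0} → Set Ordinal.{0}) (ν : Cardinal.{1}) (β c : Ordinal.{0}) : Prop :=
  c ∈ C β ∧ #(↥(C β ∩ Iio c)) < ν ∧
    (∀ c' c'', c' ∈ C β → c'' ∈ C β → c' < c'' → c'' ≤ c →
        (∀ ξ, c' < ξ → ξ ≤ c → ¬ Lp C β ξ) → InD C ν c'' c')

/-- The square hypotheses below `K`. -/
def Sq (C : Ordinal.{0} → Set Ordinal.{0}) (K : Ordinal.{0}) : Prop :=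
  ∀ α < K, IsSuccLimit α →
    C α ⊆ Iio α ∧ (∀ β < α, ∃ γ ∈ C α, β < γ) ∧
    (∀ β < α, IsSuccLimit β → (∀ γ < β, ∃ ξ ∈ C α, γ < ξ ∧ ξ < β) → β ∈ C α) ∧
    (∀ β < α, IsSuccLimit β → (∀ γ < β, ∃ ξ ∈ C α, γ < ξ ∧ ξ < β) → C β = C α ∩ Iio β)

variable {C : Ordinal.{0} → Set Ordinal.{0}} {ν : Cardinal.{1}} {K : Ordinal.{0}}

theorem inD_lim_iff {β x : Ordinal.{0}} (hβ : IsSuccLimit β) :
    InD C ν β x ↔ ∃ c, Good C ν β c ∧ InD C ν c x := by
  constructor
  · intro h
    cases h with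
    | self α _ _ h1 _ => exact absurd hβ (by rw [h1]; exact not_isSuccLimit_succ α)
    | lift α _ _ h1 _ => exact absurd hβ (by rw [h1]; exact not_isSuccLimit_succ α)
    | lim _ c _ h1 h2 h3 h4 h5 => exact ⟨c, ⟨h2, h3, h4⟩, h5⟩
  · rintro ⟨c, ⟨h2, h3, h4⟩, h5⟩
    exact InD.lim β c x hβ h2 h3 h4 h5

theorem inD_succ_iff {α x : Ordinal.{0}} :
    InD C ν (succ α) x ↔ x = α ∨ InD C ν α x := by
  constructor
  · intro h
    cases h with
    | self α' _ _ h1 h2 => 
      have := succ_injective h1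
      left; rw [h2, this]
    | lift α' _ _ h1 h2 => 
      have := succ_injective h1
      right; rw [this]; exact h2
    | lim _ c _ h1 h2 h3 h4 h5 => exact absurd h1 (not_isSuccLimit_succ α)
  · rintro (h | h)
    · exact InD.self α _ x rfl h
    · exact InD.lift α _ x rfl h

theorem not_inD_zero {x : Ordinal.{0}} : ¬ InD C ν 0 x := by
  intro h
  cases h with
  | self α' _ _ h1 h2 => exact (Ordinal.succ_ne_zero α') h1.symm
  | lift α' _ _ h1 h2 => exact (Ordinal.succ_ne_zero α') h1.symm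
  | lim _ c _ h1 h2 h3 h4 h5 => exact absurd h1 (by simp)

theorem lt_of_inD (hC : Sq C K) : ∀ β < K, ∀ x, InD C ν β x → x < β := by
  intro β
  induction β using WellFoundedLT.induction with
  | ind β ih =>
    intro hβ x hx
    rcases Ordinal.zero_or_succ_or_isSuccLimit β with h0 | ⟨t, ht⟩ | hl
    · subst h0; exact absurd hx not_inD_zero
    · subst ht
      rcases inD_succ_iff.mp hx with h | h
      · rw [h]; exact lt_succ t
      · exact (ih t (lt_succ t) ((lt_succ t).trans hβ) x h).trans (lt_succ t)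
    · obtain ⟨c, hc, hcx⟩ := (inD_lim_iff hl).mp hx
      have hcβ : c < β := (hC β hβ hl).1 hc.1
      exact (ih c hcβ (hcβ.trans hβ) x hcx).trans hcβ

theorem inD_mono {ν' : Cardinal.{1}} (h : ν ≤ ν') {β x : Ordinal.{0}} (hx : InD C ν β x) :
    InD C ν' β x := by
  induction hx with
  | self α β x h1 h2 => exact InD.self α β x h1 h2
  | lift α β x h1 h2 ih => exact InD.lift α β x h1 ih
  | lim β c x h1 h2 h3 h4 h5 ih1 ih2 =>
    exact InD.lim β c x h1 h2 (h3.trans_le h) (fun c' c'' a b d e f => ih1 c' c'' a b d e f) ih2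

theorem good_mono {ν' : Cardinal.{1}} (h : ν ≤ ν') {β c : Ordinal.{0}} (hx : Good C ν β c) :
    Good C ν' β c :=
  ⟨hx.1, hx.2.1.trans_le h, fun c' c'' a b d e f => inD_mono h (hx.2.2 c' c'' a b d e f)⟩

theorem coh_aux (hC : Sq C K) : ∀ β < K,
    (∀ x, InD C ν β x → ∀ y, (InD C ν x y ↔ (InD C ν β y ∧ y < x))) ∧
    (IsSuccLimit β → ∀ c, Good C ν β c → ∀ y, (InD C ν c y ↔ (InD C ν β y ∧ y < c))) := by
  intro β
  induction β using WellFoundedLT.induction with
  | ind β ih =>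
    intro hβ
    have key : IsSuccLimit β → ∀ c c', c < c' → Good C ν β c → Good C ν β c' →
        ∀ y, (InD C ν c y ↔ (InD C ν c' y ∧ y < c)) := by
      intro hl c c' hcc hc hc' y
      obtain ⟨hC1, hC2, hC3, hC5⟩ := hC β hβ hl
      have hc'β : c' < β := hC1 hc'.1
      by_cases hex : ∃ ξ, c < ξ ∧ ξ ≤ c' ∧ Lp C β ξ
      · set S : Set Ordinal.{0} := {ξ | c < ξ ∧ ξ ≤ c' ∧ Lp C β ξ} with hS
        have hSne : S.Nonempty := hex
        have hSb : BddAbove S := ⟨c', fun ξ hξ => hξ.2.1⟩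
        set η := sSup S with hη
        have hηc' : η ≤ c' := csSup_le hSne (fun ξ hξ => hξ.2.1)
        have hcη : c < η := by
          obtain ⟨ξ, hξ⟩ := hSne
          exact hξ.1.trans_le (le_csSup hSb hξ)
        have hηLp : Lp C β η := by
          refine ⟨(bot_le.trans_lt hcη).ne', ?_⟩
          intro γ hγ
          obtain ⟨ξ, hξ, hγξ⟩ := exists_lt_of_lt_csSup hSne hγ
          obtain ⟨ζ, hζ, h1, h2⟩ := hξ.2.2.2 γ hγξ
          exact ⟨ζ, hζ, h1, h2.trans_le (le_csSup hSb hξ)⟩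
        have hηβ : η < β := hηc'.trans_lt hc'β
        have hηl := hηLp.isSuccLimit
        have hCη := hC5 η hηβ hηl hηLp.2
        have hgood : Good C ν η c := by
          refine ⟨by rw [hCη]; exact ⟨hc.1, hcη⟩, ?_, ?_⟩
          · have : C η ∩ Iio c = C β ∩ Iio c := by
              rw [hCη]; ext z; constructor
              · rintro ⟨⟨h1, h2⟩, h3⟩; exact ⟨h1, h3⟩
              · rintro ⟨h1, h3⟩; exact ⟨⟨h1, lt_trans h3 hcη⟩, h3⟩
            rw [this]; exact hc.2.1
          · intro a b ha hb hab hbc hno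
            rw [hCη] at ha hb
            refine hc.2.2 a b ha.1 hb.1 hab hbc ?_
            intro ξ h1 h2 h3
            refine hno ξ h1 h2 ⟨h3.1, ?_⟩
            intro γ hγ
            obtain ⟨ζ, hζ, h4, h5⟩ := h3.2 γ hγ
            exact ⟨ζ, by rw [hCη]; exact ⟨hζ, (h5.trans_le h2).trans hcη⟩, h4, h5⟩
        have hB := (ih η hηβ (hηβ.trans hβ)).2 hηl c hgood y
        rcases hηc'.eq_or_lt with h | h
        · rw [← h]; exact hB
        · have hηC : η ∈ C β := hC3 η hηβ hηl hηLp.2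
          have hin : InD C ν c' η := by
            refine hc'.2.2 η c' hηC hc'.1 h le_rfl ?_
            intro ξ h1 h2 h3
            have : ξ ∈ S := ⟨hcη.trans h1, h2, h3⟩
            exact absurd (le_csSup hSb this) (not_le.mpr h1)
          have hA := (ih c' hc'β (hc'β.trans hβ)).1 η hin y
          constructor
          · intro hy
            have := hB.mp hy
            exact ⟨(hA.mp this.1).1, this.2⟩
          · rintro ⟨h1, h2⟩
            exact hB.mpr ⟨hA.mpr ⟨h1, h2.trans hcη⟩, h2⟩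
      · push Not at hex
        have hin : InD C ν c' c := hc'.2.2 c c' hc.1 hc'.1 hcc le_rfl (fun ξ h1 h2 => hex ξ h1 h2)
        exact (ih c' hc'β (hc'β.trans hβ)).1 c hin y
    have hB : IsSuccLimit β → ∀ c, Good C ν β c → ∀ y, (InD C ν c y ↔ (InD C ν β y ∧ y < c)) := by
      intro hl c hc y
      have hcβ : c < β := (hC β hβ hl).1 hc.1
      constructor
      · intro hy
        exact ⟨(inD_lim_iff hl).mpr ⟨c, hc, hy⟩, lt_of_inD hC c (hcβ.trans hβ) y hy⟩
      · rintro ⟨h1, h2⟩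
        obtain ⟨c', hc', hy⟩ := (inD_lim_iff hl).mp h1
        rcases lt_trichotomy c c' with h | h | h
        · exact (key hl c c' h hc hc' y).mpr ⟨hy, h2⟩
        · rw [h]; exact hy
        · exact ((key hl c' c h hc' hc y).mp hy).1
    refine ⟨?_, hB⟩
    intro x hx y
    rcases Ordinal.zero_or_succ_or_isSuccLimit β with h0 | ⟨t, ht⟩ | hl
    · subst h0; exact absurd hx not_inD_zero
    · subst ht
      have htK : t < K := (lt_succ t).trans hβ
      rcases inD_succ_iff.mp hx with h | h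
      · subst h
        constructor
        · intro hy
          exact ⟨inD_succ_iff.mpr (Or.inr hy), lt_of_inD hC _ htK y hy⟩
        · rintro ⟨h1, h2⟩
          rcases inD_succ_iff.mp h1 with h3 | h3
          · exact absurd h3 h2.ne
          · exact h3
      · have hA := (ih t (lt_succ t) htK).1 x h y
        have hxt := lt_of_inD hC _ htK x h
        constructor
        · intro hy
          exact ⟨inD_succ_iff.mpr (Or.inr (hA.mp hy).1), (hA.mp hy).2⟩
        · rintro ⟨h1, h2⟩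
          rcases inD_succ_iff.mp h1 with h3 | h3
          · exact absurd h3 (h2.trans hxt).ne
          · exact hA.mpr ⟨h3, h2⟩
    · obtain ⟨c, hc, hcx⟩ := (inD_lim_iff hl).mp hx
      have hcβ : c < β := (hC β hβ hl).1 hc.1
      have hA := (ih c hcβ (hcβ.trans hβ)).1 x hcx y
      have hB' := hB hl c hc y
      have hxc := lt_of_inD hC c (hcβ.trans hβ) x hcx
      constructor
      · intro hy
        have := hA.mp hy
        exact ⟨(hB'.mp this.1).1, this.2⟩
      · rintro ⟨h1, h2⟩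
        exact hA.mpr ⟨hB'.mpr ⟨h1, h2.trans hxc⟩, h2⟩

theorem coh (hC : Sq C K) {β x : Ordinal.{0}} (hβ : β < K) (hx : InD C ν β x) (y : Ordinal.{0}) :
    InD C ν x y ↔ (InD C ν β y ∧ y < x) := (coh_aux hC β hβ).1 x hx y

theorem coh' (hC : Sq C K) {β c : Ordinal.{0}} (hβ : β < K) (hl : IsSuccLimit β)
    (hx : Good C ν β c) (y : Ordinal.{0}) :
    InD C ν c y ↔ (InD C ν β y ∧ y < c) := (coh_aux hC β hβ).2 hl c hx y

end W590F
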