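import Pool.Agent.W590.FrD
set_option autoImplicit false
open Ordinal Cardinal Set Order

namespace W590F

variable {C : Ordinal.{0} → Set Ordinal.{0}} {ν : Cardinal.{1}} {K : Ordinal.{0}}

theorem exists_good (hC : Sq C K) (w : Ordinal.{0} → Cardinal.{1}) (hw : Monotone w)
    (I : Ordinal.{0}) {β : Ordinal.{0}} (hβ : β < K) (hl : IsSuccLimit β)
    (hsm : ∀ c ∈ C β, ∃ i < I, #(↥(C β ∩ Iio c)) < w i)
    (hun : ∀ c < β, ∀ x < c, ∃ i < I, InD C (w i) c x) :
    ∀ c, c ∈ C β → ∃ i < I, Good C (w i) β c := by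
  obtain ⟨hC1, hC2, hC3, hC5⟩ := hC β hβ hl
  intro c
  induction c using WellFoundedLT.induction with
  | ind c ih =>
    intro hc
    obtain ⟨i0, hi0, hi0'⟩ := hsm c hc
    by_cases hlp : Lp C β c
    · refine ⟨i0, hi0, hc, hi0', ?_⟩
      intro a b ha hb hab hbc hno
      exact absurd hlp (hno c (hab.trans_le hbc) le_rfl)
    by_cases hemp : ∃ a, a ∈ C β ∧ a < c
    · obtain ⟨a0, ha0, ha0c⟩ := hemp
      have hc0 : c ≠ 0 := (bot_le.trans_lt ha0c).ne'
      have hex : ∃ γ < c, ∀ ζ ∈ C β, γ < ζ → ¬ ζ < c := by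
        by_contra hcon
        push Not at hcon
        exact hlp ⟨hc0, hcon⟩
      obtain ⟨γ, hγc, hγ⟩ := hex
      set S : Set Ordinal.{0} := C β ∩ Iio c with hS
      have hSne : S.Nonempty := ⟨a0, ha0, ha0c⟩
      have hSle : ∀ z ∈ S, z ≤ γ := fun z hz => not_lt.mp (fun h => hγ z hz.1 h hz.2)
      have hSb : BddAbove S := ⟨γ, hSle⟩
      set s := sSup S with hs
      have hsγ : s ≤ γ := csSup_le hSne hSle
      have hsc : s < c := hsγ.trans_lt hγc
      have hcβ : c < β := hC1 hc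
      have hsS : s ∈ C β := by
        by_contra hns
        have hLp : Lp C β s := by
          refine ⟨?_, ?_⟩
          · intro h0
            have : a0 ≤ s := le_csSup hSb ⟨ha0, ha0c⟩
            have h2 : a0 = s := le_antisymm this (by rw [h0]; exact bot_le)
            exact hns (h2 ▸ ha0)
          · intro γ' hγ'
            obtain ⟨ζ, hζ, h1⟩ := exists_lt_of_lt_csSup hSne hγ'
            refine ⟨ζ, hζ.1, h1, lt_of_le_of_ne (le_csSup hSb hζ) ?_⟩
            intro h2
            exact hns (h2 ▸ hζ.1)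
        exact hns (hC3 s (hsc.trans hcβ) hLp.isSuccLimit hLp.2)
      have hmax : ∀ z ∈ C β, z < c → z ≤ s := fun z hz hzc => le_csSup hSb ⟨hz, hzc⟩
      obtain ⟨i1, hi1, hi1'⟩ := ih s hsc hsS
      obtain ⟨i2, hi2, hi2'⟩ := hun c hcβ s hsc
      refine ⟨max i0 (max i1 i2), max_lt hi0 (max_lt hi1 hi2), hc,
        hi0'.trans_le (hw (le_max_left _ _)), ?_⟩
      have hg : Good C (w (max i0 (max i1 i2))) β s :=
        good_mono (hw ((le_max_left i1 i2).trans (le_max_right _ _))) hi1'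
      have hin : InD C (w (max i0 (max i1 i2))) c s :=
        inD_mono (hw ((le_max_right i1 i2).trans (le_max_right _ _))) hi2'
      intro a b ha hb hab hbc hno
      have hac : a < c := hab.trans_le hbc
      have has : a ≤ s := hmax a ha hac
      rcases hbc.lt_or_eq with h | h
      · exact hg.2.2 a b ha hb hab (hmax b hb h) (fun ξ h1 h2 => hno ξ h1 (h2.trans hsc.le))
      · subst h
        rcases has.lt_or_eq with h3 | h3
        · have h4 := hg.2.2 a s ha hsS h3 le_rfl (fun ξ h1 h2 => hno ξ h1 (h2.trans hsc.le))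
          exact ((coh hC (hcβ.trans hβ) hin a).mp h4).1
        · rw [h3]; exact hin
    · refine ⟨i0, hi0, hc, hi0', ?_⟩
      intro a b ha hb hab hbc hno
      exact absurd ⟨a, ha, hab.trans_le hbc⟩ hemp

theorem exists_inD (hC : Sq C K) (w : Ordinal.{0} → Cardinal.{1}) (hw : Monotone w)
    (I : Ordinal.{0}) (hI : 0 < I)
    (hsm : ∀ β < K, IsSuccLimit β → ∀ c ∈ C β, ∃ i < I, #(↥(C β ∩ Iio c)) < w i) :
    ∀ β < K, ∀ x < β, ∃ i < I, InD C (w i) β x := by
  intro β
  induction β using WellFoundedLT.induction with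
  | ind β ih =>
    intro hβ x hx
    rcases Ordinal.zero_or_succ_or_isSuccLimit β with h0 | ⟨t, ht⟩ | hl
    · subst h0; exact absurd hx (not_lt_bot)
    · subst ht
      rcases (Order.lt_succ_iff.mp hx).lt_or_eq with h | h
      · obtain ⟨i, hi, h1⟩ := ih t (lt_succ t) ((lt_succ t).trans hβ) x h
        exact ⟨i, hi, inD_succ_iff.mpr (Or.inr h1)⟩
      · exact ⟨0, hI, inD_succ_iff.mpr (Or.inl h)⟩
    · obtain ⟨hC1, hC2, hC3, hC5⟩ := hC β hβ hl
      obtain ⟨c, hc, hxc⟩ := hC2 x hx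
      have hcβ : c < β := hC1 hc
      obtain ⟨i1, hi1, h1⟩ := exists_good hC w hw I hβ hl (hsm β hβ hl)
        (fun c hc x hx => ih c hc (hc.trans hβ) x hx) c hc
      obtain ⟨i2, hi2, h2⟩ := ih c hcβ (hcβ.trans hβ) x hxc
      refine ⟨max i1 i2, max_lt hi1 hi2, (inD_lim_iff hl).mpr ⟨c, ?_, ?_⟩⟩
      · exact good_mono (hw (le_max_left _ _)) h1
      · exact inD_mono (hw (le_max_right _ _)) h2

theorem mk_le_of_initial (S : Set Ordinal.{0}) (ν : Cardinal.{1})
    (h : ∀ c ∈ S, #(↥(S ∩ Iio c)) < ν) : #(↥S) ≤ ν := by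
  by_contra hcon
  push Not at hcon
  have hlt : ν.ord < Ordinal.type (fun a b : S => a < b) := by
    by_contra hle
    push Not at hle
    have := Ordinal.card_le_card hle
    rw [Cardinal.card_ord, Ordinal.card_type] at this
    exact absurd this (not_le.mpr hcon)
  set c : S := Ordinal.enum (fun a b : S => a < b) ⟨ν.ord, hlt⟩ with hc
  have h1 : Ordinal.typein (fun a b : S => a < b) c = ν.ord := Ordinal.typein_enum _ hlt
  have h2 : #{y : S // y < c} = ν := by
    have := Ordinal.card_typein (r := fun a b : S => a < b) c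
    rw [h1, Cardinal.card_ord] at this
    exact this.symm
  have h3 : #{y : S // y < c} ≤ #(↥(S ∩ Iio (c : Ordinal.{0}))) := by
    refine Cardinal.mk_le_of_injective (f := fun y => ⟨y.1.1, y.1.2, y.2⟩) ?_
    intro a b hab
    have := congrArg Subtype.val hab
    exact Subtype.ext (Subtype.ext this)
  have h4 := h c.1 c.2
  rw [h2] at h3
  exact absurd h4 (not_lt.mpr h3)

theorem mk_inD_le (hC : Sq C K) (hν : ℵ₀ ≤ ν) : ∀ β < K, #(↥{x | InD C ν β x}) ≤ ν := by
  intro β
  induction β using WellFoundedLT.induction with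
  | ind β ih =>
    intro hβ
    rcases Ordinal.zero_or_succ_or_isSuccLimit β with h0 | ⟨t, ht⟩ | hl
    · subst h0
      have : {x | InD C ν 0 x} = ∅ := by
        ext x; simp [not_inD_zero]
      rw [this]; simp
    · subst ht
      have : {x | InD C ν (succ t) x} = insert t {x | InD C ν t x} := by
        ext x; simp only [mem_setOf_eq, mem_insert_iff]; exact inD_succ_iff
      rw [this]
      refine (Cardinal.mk_insert_le).trans ?_
      exact Cardinal.add_le_of_le hν (ih t (lt_succ t) ((lt_succ t).trans hβ))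
        (Cardinal.one_lt_aleph0.le.trans hν)
    · have hC1 := (hC β hβ hl).1
      have heq : {x | InD C ν β x} = ⋃ c ∈ {c | Good C ν β c}, {x | InD C ν c x} := by
        ext x; simp only [mem_setOf_eq, mem_iUnion, exists_prop]; exact inD_lim_iff hl
      have hG : #(↥{c | Good C ν β c}) ≤ ν := by
        refine mk_le_of_initial _ ν ?_
        intro c hc
        refine lt_of_le_of_lt (Cardinal.mk_le_mk_of_subset ?_) hc.2.1
        rintro z ⟨h1, h2⟩
        exact ⟨h1.1, h2⟩
      rw [heq]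
      refine (Cardinal.mk_biUnion_le _ _).trans ?_
      refine (mul_le_mul' hG (ciSup_le' ?_)).trans (Cardinal.mul_eq_self hν).le
      rintro ⟨c, hc⟩
      have hcβ : c < β := hC1 hc.1
      exact ih c hcβ (hcβ.trans hβ)

/-- rank of `β` in the relation `InD`. -/
noncomputable def rk (C : Ordinal.{0} → Set Ordinal.{0}) (ν : Cardinal.{1})
    (β : Ordinal.{0}) : Ordinal.{0} :=
  sSup {z | ∃ γ, ∃ _h : γ < β, InD C ν β γ ∧ z = succ (rk C ν γ)}
termination_by β
decreasing_by exact _h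

theorem rk_bdd (β : Ordinal.{0}) :
    BddAbove {z | ∃ γ, ∃ _h : γ < β, InD C ν β γ ∧ z = succ (rk C ν γ)} := by
  have h1 : BddAbove ((fun γ => succ (rk C ν γ)) '' Iio β) := Ordinal.bddAbove_of_small
  refine h1.mono ?_
  rintro z ⟨γ, h, _, rfl⟩
  exact ⟨γ, h, rfl⟩

theorem rk_lt (hC : Sq C K) {β γ : Ordinal.{0}} (hβ : β < K) (h : InD C ν β γ) :
    rk C ν γ < rk C ν β := by
  have h1 := lt_of_inD hC β hβ γ h
  rw [rk.eq_1 C ν β]
  exact lt_of_lt_of_le (lt_succ _) (le_csSup (rk_bdd β) ⟨γ, h1, h, rfl⟩)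

theorem exists_rk (hC : Sq C K) : ∀ β < K, ∀ ζ < rk C ν β, ∃ γ, InD C ν β γ ∧ rk C ν γ = ζ := by
  intro β
  induction β using WellFoundedLT.induction with
  | ind β ih =>
    intro hβ ζ hζ
    have hζ' := hζ
    rw [rk.eq_1 C ν β] at hζ'
    have hne : {z | ∃ γ, ∃ _h : γ < β, InD C ν β γ ∧ z = succ (rk C ν γ)}.Nonempty := by
      by_contra hcon
      rw [Set.not_nonempty_iff_eq_empty] at hcon
      rw [hcon] at hζ'
      simp at hζ'
    obtain ⟨z, ⟨γ, hγ, h1, rfl⟩, h2⟩ := exists_lt_of_lt_csSup hne hζ'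
    rcases (Order.lt_succ_iff.mp h2).lt_or_eq with h | h
    · obtain ⟨γ', h3, h4⟩ := ih γ hγ (hγ.trans hβ) ζ h
      exact ⟨γ', ((coh hC hβ h1 γ').mp h3).1, h4⟩
    · exact ⟨γ, h1, h.symm⟩

theorem rk_inj (hC : Sq C K) {β γ γ' : Ordinal.{0}} (hβ : β < K) (h : InD C ν β γ)
    (h' : InD C ν β γ') (he : rk C ν γ = rk C ν γ') : γ = γ' := by
  rcases lt_trichotomy γ γ' with hl | hl | hl
  · have h1 := (coh hC hβ h' γ).mpr ⟨h, hl⟩
    exact absurd he (rk_lt hC ((lt_of_inD hC β hβ γ' h').trans hβ) h1).ne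
  · exact hl
  · have h1 := (coh hC hβ h γ').mpr ⟨h', hl⟩
    exact absurd he.symm (rk_lt hC ((lt_of_inD hC β hβ γ h).trans hβ) h1).ne

theorem card_rk_le (hC : Sq C K) (ν' : Cardinal.{0}) (hν : ℵ₀ ≤ ν') {β : Ordinal.{0}} (hβ : β < K) :
    (rk C (Cardinal.lift.{1} ν') β).card ≤ ν' := by
  have h1 := mk_inD_le (ν := Cardinal.lift.{1} ν') hC (by simpa using hν) β hβ
  have h2 : #(↥(Iio (rk C (Cardinal.lift.{1} ν') β))) ≤
      #(↥{x | InD C (Cardinal.lift.{1} ν') β x}) := by
    choose! f hf1 hf2 using exists_rk (ν := Cardinal.lift.{1} ν') hC β hβ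
    refine Cardinal.mk_le_of_injective (f := fun z => ⟨f z.1, hf1 z.1 z.2⟩) ?_
    intro a b hab
    have := congrArg Subtype.val hab
    simp only at this
    apply Subtype.ext
    rw [← hf2 a.1 a.2, ← hf2 b.1 b.2, this]
  have h3 := h2.trans h1
  rw [Cardinal.mk_Iio_ordinal] at h3
  exact Cardinal.lift_le.mp h3

end W590F
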