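import Pool.Agent.W590.FrE
set_option autoImplicit false
open Ordinal Cardinal Set Order

namespace W590F

section
variable (δ κ : Cardinal.{0}) (U : Ultrafilter Ordinal.{0})
  (C : Ordinal.{0} → Set Ordinal.{0}) (v : Ordinal.{0} → Cardinal.{0})
  (ρ : (Ordinal.{0} → Ordinal.{0}) → Ordinal.{0})

/-- the rank functions -/
noncomputable def gg (β i : Ordinal.{0}) : Ordinal.{0} := rk C (Cardinal.lift.{1} (v i)) β

/-- the relation at index `i` -/
def DD (i β γ : Ordinal.{0}) : Prop := InD C (Cardinal.lift.{1} (v i)) β γ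

/-- coded sets -/
def BB (m : Ordinal.{0}) (H : Ordinal.{0} → Set Ordinal.{0}) (β i : Ordinal.{0}) : Set Ordinal.{0} :=
  {z | ∃ α ξ, DD C v i β α ∧ ξ ∈ H α ∧ z = m * gg C v α i + ξ}

/-- the coded subset of the collapse -/
def AA (K m : Ordinal.{0}) (H : Ordinal.{0} → Set Ordinal.{0}) : Set Ordinal.{0} :=
  {η | ∃ β < K, ∃ f : Ordinal.{0} → Ordinal.{0}, ρ f = η ∧
    ∀ᶠ i in (U : Filter Ordinal.{0}), f i ∈ BB C v m H β i}

variable {C v}

theorem BB_lt {K m : Ordinal.{0}} (hC : Sq C K) {H : Ordinal.{0} → Set Ordinal.{0}}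
    (hH : ∀ β, H β ⊆ Iio m) {β i z : Ordinal.{0}} (hβ : β < K) (hz : z ∈ BB C v m H β i) :
    z < m * gg C v β i := by
  obtain ⟨α, ξ, h1, h2, rfl⟩ := hz
  have h3 : gg C v α i < gg C v β i := rk_lt hC hβ h1
  have h4 : ξ < m := hH α h2
  calc m * gg C v α i + ξ < m * gg C v α i + m := by gcongr
    _ = m * (gg C v α i + 1) := by rw [mul_add, mul_one]
    _ ≤ m * gg C v β i := by
        gcongr
        exact Order.add_one_le_of_lt h3

theorem BB_coh {K m : Ordinal.{0}} (hC : Sq C K) {H : Ordinal.{0} → Set Ordinal.{0}}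
    (hH : ∀ β, H β ⊆ Iio m) {β γ i : Ordinal.{0}} (hβ : β < K) (hγ : DD C v i β γ) (z : Ordinal.{0}) :
    z ∈ BB C v m H γ i ↔ (z ∈ BB C v m H β i ∧ z < m * gg C v γ i) := by
  have hγβ := lt_of_inD hC β hβ γ hγ
  constructor
  · intro hz
    refine ⟨?_, BB_lt hC hH (hγβ.trans hβ) hz⟩
    obtain ⟨α, ξ, h1, h2, rfl⟩ := hz
    exact ⟨α, ξ, ((coh hC hβ hγ α).mp h1).1, h2, rfl⟩
  · rintro ⟨⟨α, ξ, h1, h2, rfl⟩, h3⟩
    refine ⟨α, ξ, ?_, h2, rfl⟩
    have hlt : gg C v α i < gg C v γ i := by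
      by_contra hcon
      push Not at hcon
      have : m * gg C v γ i ≤ m * gg C v α i + ξ :=
        (mul_le_mul_right hcon m).trans le_self_add
      exact absurd h3 (not_lt.mpr this)
    rcases lt_trichotomy α γ with h | h | h
    · exact (coh hC hβ hγ α).mpr ⟨h1, h⟩
    · subst h; exact absurd hlt (lt_irrefl _)
    · have h5 := (coh hC hβ h1 γ).mpr ⟨hγ, h⟩
      have h6 : gg C v γ i < gg C v α i := rk_lt hC ((lt_of_inD hC β hβ α h1).trans hβ) h5
      exact absurd hlt (not_lt.mpr h6.le)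

variable {ρ U}

theorem rho_lt_mono
    (hρ : ∀ h h' : Ordinal.{0} → Ordinal.{0},
          ρ h < ρ h' ↔ ∀ᶠ i in (U : Filter Ordinal.{0}), h i < h' i)
    {f f' : Ordinal.{0} → Ordinal.{0}} (h : ∀ i, f i ≤ f' i) : ρ f ≤ ρ f' := by
  by_contra hcon
  push Not at hcon
  rw [hρ] at hcon
  have : ∀ᶠ i in (U : Filter Ordinal.{0}), False := by
    filter_upwards [hcon] with i hi
    exact absurd hi (not_lt.mpr (h i))
  exact this.exists.elim (fun _ h => h)

theorem rho_eq
    (hρ : ∀ h h' : Ordinal.{0} → Ordinal.{0},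
          ρ h < ρ h' ↔ ∀ᶠ i in (U : Filter Ordinal.{0}), h i < h' i)
    {f f' : Ordinal.{0} → Ordinal.{0}} (h : ρ f = ρ f') :
    ∀ᶠ i in (U : Filter Ordinal.{0}), f i = f' i := by
  have h1 : ¬ ∀ᶠ i in (U : Filter Ordinal.{0}), f i < f' i := by rw [← hρ, h]; exact lt_irrefl _
  have h2 : ¬ ∀ᶠ i in (U : Filter Ordinal.{0}), f' i < f i := by rw [← hρ, h]; exact lt_irrefl _
  rw [← Ultrafilter.eventually_not] at h1 h2
  filter_upwards [h1, h2] with i a b
  exact le_antisymm (not_lt.mp b) (not_lt.mp a)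

/-- Main lemma. -/
theorem main_lemma {δ κ : Cardinal.{0}}
    (hδU : Set.Iio δ.ord ∈ U)
    (hge : ∀ i₀ < δ.ord, {i | i₀ ≤ i} ∈ U)
    (hρ : ∀ h h' : Ordinal.{0} → Ordinal.{0},
          ρ h < ρ h' ↔ ∀ᶠ i in (U : Filter Ordinal.{0}), h i < h' i)
    (hρ' : ∀ h : Ordinal.{0} → Ordinal.{0}, ∀ β < ρ h, ∃ h' : Ordinal.{0} → Ordinal.{0}, ρ h' = β)
    (K : Ordinal.{0}) (hK : ∀ β < K, succ β < K) (hC : Sq C K)
    (hvmono : Monotone v) (hvinf : ∀ i, ℵ₀ ≤ v i)
    (hD : ∀ β < K, ∀ x < β, ∃ i < δ.ord, DD C v i β x)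
    (hcard : ∀ h : Ordinal.{0} → Ordinal.{0},
      (∀ᶠ i in (U : Filter Ordinal.{0}), (h i).card ≤ v i) → ρ h < K)
    (m : Ordinal.{0}) (hm : 0 < m) (hmv : ∀ i, m.card ≤ v i)
    (H : Ordinal.{0} → Set Ordinal.{0}) (hH : ∀ β, H β ⊆ Iio m)
    (hne : ∀ β < K, ∃ γ < K, β < γ ∧ (H γ).Nonempty)
    (hno : ¬ ∃ A : Set Ordinal.{0},
        A ⊆ Set.Iio K ∧
        (∀ β < K, ∃ γ ∈ A, β < γ) ∧
        (¬ ∃ g : Ordinal.{0} → Set Ordinal.{0}, ∀ η : Ordinal.{0},
            η ∈ A ↔ ∃ f : Ordinal.{0} → Ordinal.{0},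
              ρ f = η ∧ ∀ᶠ i in (U : Filter Ordinal.{0}), f i ∈ g i) ∧
        (∀ α < K, ∃ g : Ordinal.{0} → Set Ordinal.{0}, ∀ η : Ordinal.{0},
            η ∈ A ∩ Set.Iio α ↔ ∃ f : Ordinal.{0} → Ordinal.{0},
              ρ f = η ∧ ∀ᶠ i in (U : Filter Ordinal.{0}), f i ∈ g i)) :
    ∃ F : Ordinal.{0} → Ordinal.{0} → Set Ordinal.{0}, ∀ β < K,
      ∀ᶠ i in (U : Filter Ordinal.{0}), H β = F i (gg C v β i) := by
  -- eventual membership
  have hev : ∀ β < K, ∀ γ < β, ∀ᶠ i in (U : Filter Ordinal.{0}), DD C v i β γ := by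
    intro β hβ γ hγ
    obtain ⟨i0, hi0, h⟩ := hD β hβ γ hγ
    have := hge i0 hi0
    filter_upwards [this] with i hi
    exact inD_mono (Cardinal.lift_le.mpr (hvmono hi)) h
  have hle_mul : ∀ x : Ordinal.{0}, x ≤ m * x := fun x => Ordinal.le_mul_right x hm
  have hρβ : ∀ β < K, β ≤ ρ (fun i => gg C v β i) := by
    intro β
    induction β using WellFoundedLT.induction with
    | ind β ih =>
      intro hβ
      refine le_of_forall_lt ?_
      intro γ hγ
      refine (ih γ hγ (hγ.trans hβ)).trans_lt ?_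
      rw [hρ]
      filter_upwards [hev β hβ γ hγ] with i hi
      exact rk_lt hC hβ hi
  have hρβ' : ∀ β < K, β ≤ ρ (fun i => m * gg C v β i) := fun β hβ =>
    (hρβ β hβ).trans (rho_lt_mono hρ (fun i => hle_mul _))
  -- representation
  have hR : ∀ β < K, ∀ η, (η ∈ AA U C v ρ K m H ∧ η < ρ (fun i => m * gg C v β i)) ↔
      ∃ f : Ordinal.{0} → Ordinal.{0}, ρ f = η ∧
        ∀ᶠ i in (U : Filter Ordinal.{0}), f i ∈ BB C v m H β i := by
    intro β hβ η
    constructor
    · rintro ⟨⟨β', hβ', f, rfl, hf⟩, hlt⟩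
      refine ⟨f, rfl, ?_⟩
      rw [hρ] at hlt
      rcases lt_trichotomy β β' with h | h | h
      · filter_upwards [hf, hlt, hev β' hβ' β h] with i h1 h2 h3
        exact (BB_coh hC hH hβ' h3 _).mpr ⟨h1, h2⟩
      · subst h; exact hf
      · filter_upwards [hf, hlt, hev β hβ β' h] with i h1 h2 h3
        exact ((BB_coh hC hH hβ h3 _).mp h1).1
    · rintro ⟨f, rfl, hf⟩
      refine ⟨⟨β, hβ, f, rfl, hf⟩, ?_⟩
      rw [hρ]
      filter_upwards [hf] with i h1
      exact BB_lt hC hH hβ h1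
  by_contra hF
  apply hno
  refine ⟨AA U C v ρ K m H, ?_, ?_, ?_, ?_⟩
  · rintro η ⟨β, hβ, f, rfl, hf⟩
    have h1 : ρ f < ρ (fun i => m * gg C v β i) := by
      rw [hρ]
      filter_upwards [hf] with i h1
      exact BB_lt hC hH hβ h1
    refine h1.trans (hcard _ (Filter.Eventually.of_forall ?_))
    intro i
    rw [Ordinal.card_mul]
    refine (mul_le_mul' (hmv i) (card_rk_le hC (v i) (hvinf i) hβ)).trans ?_
    exact (Cardinal.mul_eq_self (hvinf i)).le
  · intro β hβ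
    obtain ⟨γ, hγ, hβγ, ξ, hξ⟩ := hne β hβ
    refine ⟨ρ (fun i => m * gg C v γ i + ξ), ⟨succ γ, hK γ hγ, _, rfl, ?_⟩, ?_⟩
    · filter_upwards with i
      exact ⟨γ, ξ, inD_succ_iff.mpr (Or.inl rfl), hξ, rfl⟩
    · refine hβγ.trans_le ((hρβ' γ hγ).trans (rho_lt_mono hρ (fun i => ?_)))
      exact le_self_add
  · rintro ⟨g, hg⟩
    apply hF
    refine ⟨fun i ζ => {ξ | ξ < m ∧ m * ζ + ξ ∈ g i}, ?_⟩
    intro β hβ
    have hβ' := hK β hβ
    have hclaim : ∀ᶠ i in (U : Filter Ordinal.{0}), ∀ z < m * gg C v (succ β) i,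
        (z ∈ g i ↔ z ∈ BB C v m H (succ β) i) := by
      by_contra hcon
      rw [← Ultrafilter.eventually_not] at hcon
      have h2 : ∃ f : Ordinal.{0} → Ordinal.{0}, ∀ᶠ i in (U : Filter Ordinal.{0}),
          f i < m * gg C v (succ β) i ∧ ¬ (f i ∈ g i ↔ f i ∈ BB C v m H (succ β) i) := by
        classical
        refine ⟨fun i => if h : ∃ z, z < m * gg C v (succ β) i ∧
          ¬ (z ∈ g i ↔ z ∈ BB C v m H (succ β) i) then h.choose else 0, ?_⟩
        filter_upwards [hcon] with i hi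
        push Not at hi
        have hex : ∃ z, z < m * gg C v (succ β) i ∧
          ¬ (z ∈ g i ↔ z ∈ BB C v m H (succ β) i) := by
          obtain ⟨z, hz1, hz2⟩ := hi
          refine ⟨z, hz1, ?_⟩
          tauto
        rw [dif_pos hex]
        exact hex.choose_spec
      obtain ⟨f, hf⟩ := h2
      have hlt : ρ f < ρ (fun i => m * gg C v (succ β) i) := by
        rw [hρ]
        filter_upwards [hf] with i hi using hi.1
      rcases Ultrafilter.em (U : Ultrafilter Ordinal.{0}) (fun i => f i ∈ g i) with h | h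
      · have hA : ρ f ∈ AA U C v ρ K m H := (hg _).mpr ⟨f, rfl, h⟩
        obtain ⟨f', hf'1, hf'2⟩ := (hR (succ β) hβ' (ρ f)).mp ⟨hA, hlt⟩
        have heq := rho_eq hρ hf'1
        have : ∀ᶠ i in (U : Filter Ordinal.{0}), False := by
          filter_upwards [hf, h, heq, hf'2] with i a b c d
          rw [c] at d
          exact a.2 ⟨fun _ => d, fun _ => b⟩
        exact this.exists.elim (fun _ h => h)
      · have hB : ∀ᶠ i in (U : Filter Ordinal.{0}), f i ∈ BB C v m H (succ β) i := by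
          filter_upwards [hf, h] with i a b
          by_contra hcc
          exact a.2 ⟨fun hx => absurd hx b, fun hx => absurd hx hcc⟩
        have hA : ρ f ∈ AA U C v ρ K m H := ((hR (succ β) hβ' (ρ f)).mpr ⟨f, rfl, hB⟩).1
        obtain ⟨f', hf'1, hf'2⟩ := (hg _).mp hA
        have heq := rho_eq hρ hf'1
        have : ∀ᶠ i in (U : Filter Ordinal.{0}), False := by
          filter_upwards [h, heq, hf'2] with i b c d
          rw [c] at d
          exact b d
        exact this.exists.elim (fun _ h => h)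
    filter_upwards [hclaim] with i hi
    have hself : DD C v i (succ β) β := inD_succ_iff.mpr (Or.inl rfl)
    ext ξ
    constructor
    · intro hξ
      refine ⟨hH β hξ, ?_⟩
      have hmem : m * gg C v β i + ξ ∈ BB C v m H (succ β) i := ⟨β, ξ, hself, hξ, rfl⟩
      exact (hi _ (BB_lt hC hH hβ' hmem)).mpr hmem
    · rintro ⟨hξm, hξ⟩
      have hlt : m * gg C v β i + ξ < m * gg C v (succ β) i := by
        have h3 : gg C v β i < gg C v (succ β) i := rk_lt hC hβ' hself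
        calc m * gg C v β i + ξ < m * gg C v β i + m := by gcongr
          _ = m * (gg C v β i + 1) := by rw [mul_add, mul_one]
          _ ≤ m * gg C v (succ β) i := by
              gcongr
              exact Order.add_one_le_of_lt h3
      obtain ⟨α, ξ', h1, h2, h3⟩ := (hi _ hlt).mp hξ
      have hm0 : m ≠ 0 := hm.ne'
      have h4 : gg C v β i = gg C v α i := by
        have h5 := congrArg (fun x => x / m) h3
        rw [Ordinal.mul_add_div _ hm0, Ordinal.mul_add_div _ hm0, Ordinal.div_eq_zero_of_lt hξm,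
          Ordinal.div_eq_zero_of_lt (hH α h2), add_zero, add_zero] at h5
        exact h5
      have h6 : β = α := rk_inj hC hβ' hself h1 h4
      subst h6
      have h7 : ξ = ξ' := by
        rw [h4] at h3
        exact (add_right_inj _).mp h3
      rw [h7]; exact h2
  · intro α hα
    have h1 := hρβ' α hα
    obtain ⟨hα', hhα⟩ : ∃ h' : Ordinal.{0} → Ordinal.{0}, ρ h' = α := by
      rcases h1.lt_or_eq with h | h
      · exact hρ' _ α h
      · exact ⟨_, h.symm⟩
    refine ⟨fun i => BB C v m H α i ∩ Iio (hα' i), ?_⟩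
    intro η
    constructor
    · rintro ⟨h2, h3⟩
      obtain ⟨f, rfl, hf⟩ := (hR α hα η).mp ⟨h2, lt_of_lt_of_le h3 h1⟩
      refine ⟨f, rfl, ?_⟩
      have h4 : ρ f < ρ hα' := by rw [hhα]; exact h3
      rw [hρ] at h4
      filter_upwards [hf, h4] with i a b using ⟨a, b⟩
    · rintro ⟨f, rfl, hf⟩
      refine ⟨((hR α hα (ρ f)).mpr ⟨f, rfl, ?_⟩).1, ?_⟩
      · filter_upwards [hf] with i a using a.1
      · show ρ f < α
        rw [← hhα, hρ]
        filter_upwards [hf] with i a using a.2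

end

end W590F
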