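import Pool.Agent.W590.FrG
import Pool.Agent.W590.FrA
import Pool.Agent.W590.FrB
set_option autoImplicit false
open Ordinal Cardinal Set Order

namespace W590F

theorem ult_ge (δ : Cardinal.{0}) (U : Ultrafilter Ordinal.{0})
    (hnp : ∀ β : Ordinal.{0}, ({β} : Set Ordinal.{0}) ∉ U)
    (hcomp : ∀ (ι : Type) (s : ι → Set Ordinal.{0}), Cardinal.mk ι < δ → (∀ i, s i ∈ U) → (⋂ i, s i) ∈ U)
    (i₀ : Ordinal.{0}) (hi₀ : i₀ < δ.ord) : {i | i₀ ≤ i} ∈ U := by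
  have h1 : #(i₀.ToType) < δ := by
    rw [Cardinal.mk_toType]
    exact Cardinal.lt_ord.mp hi₀
  have h2 := hcomp i₀.ToType (fun x => {((Ordinal.ToType.mk.symm x : Iio i₀) : Ordinal.{0})}ᶜ) h1
    (fun x => Ultrafilter.compl_mem_iff_notMem.mpr (hnp _))
  refine Filter.mem_of_superset h2 ?_
  intro i hi
  by_contra hcon
  simp only [mem_setOf_eq, not_le] at hcon
  have := mem_iInter.mp hi (Ordinal.ToType.mk ⟨i, hcon⟩)
  simp at this

/-- fresh sets exist or every coded family factors. -/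
theorem factor (δ κ : Cardinal.{0}) (U : Ultrafilter Ordinal.{0})
    (hδ0 : Cardinal.aleph0 < δ) (hδU : Set.Iio δ.ord ∈ U)
    (hnp : ∀ β : Ordinal.{0}, ({β} : Set Ordinal.{0}) ∉ U)
    (hcomp : ∀ (ι : Type) (s : ι → Set Ordinal.{0}), Cardinal.mk ι < δ → (∀ i, s i ∈ U) → (⋂ i, s i) ∈ U)
    (hnorm : ∀ f : Ordinal.{0} → Ordinal.{0}, {β | f β < β} ∈ U → ∃ γ, {β | f β = γ} ∈ U)
    (hδκ : δ < κ) (hcof : κ.ord.cof = δ) (hpow : ∀ μ : Cardinal.{0}, μ < κ → μ ^ δ < κ)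
    (hsq : ∃ C : Ordinal.{0} → Set Ordinal.{0}, ∀ α < (Order.succ κ).ord, Order.IsSuccLimit α →
        C α ⊆ Set.Iio α ∧
        (∀ β < α, ∃ γ ∈ C α, β < γ) ∧
        (∀ β < α, Order.IsSuccLimit β → (∀ γ < β, ∃ ξ ∈ C α, γ < ξ ∧ ξ < β) → β ∈ C α) ∧
        Nonempty (C α ↪o Set.Iio κ.ord) ∧
        (∀ β < α, Order.IsSuccLimit β → (∀ γ < β, ∃ ξ ∈ C α, γ < ξ ∧ ξ < β) →
          C β = C α ∩ Set.Iio β))
    (ρ : (Ordinal.{0} → Ordinal.{0}) → Ordinal.{0})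
    (hρ : ∀ h h' : Ordinal.{0} → Ordinal.{0},
          ρ h < ρ h' ↔ ∀ᶠ i in (U : Filter Ordinal.{0}), h i < h' i)
    (hρ' : ∀ h : Ordinal.{0} → Ordinal.{0}, ∀ β < ρ h, ∃ h' : Ordinal.{0} → Ordinal.{0}, ρ h' = β)
    (hno : ¬ ∃ A : Set Ordinal.{0},
        A ⊆ Set.Iio (Order.succ κ).ord ∧
        (∀ β < (Order.succ κ).ord, ∃ γ ∈ A, β < γ) ∧
        (¬ ∃ g : Ordinal.{0} → Set Ordinal.{0}, ∀ η : Ordinal.{0},
            η ∈ A ↔ ∃ f : Ordinal.{0} → Ordinal.{0},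
              ρ f = η ∧ ∀ᶠ i in (U : Filter Ordinal.{0}), f i ∈ g i) ∧
        (∀ α < (Order.succ κ).ord, ∃ g : Ordinal.{0} → Set Ordinal.{0}, ∀ η : Ordinal.{0},
            η ∈ A ∩ Set.Iio α ↔ ∃ f : Ordinal.{0} → Ordinal.{0},
              ρ f = η ∧ ∀ᶠ i in (U : Filter Ordinal.{0}), f i ∈ g i))
    (m : Ordinal.{0}) (hm : 0 < m) (hmκ : m.card < κ) :
    ∃ G : Ordinal.{0} → Ordinal.{0} → Ordinal.{0},
      (∀ β < (Order.succ κ).ord, ∀ i < δ.ord, G β i < κ.ord) ∧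
      ∀ H : Ordinal.{0} → Set Ordinal.{0}, (∀ β, H β ⊆ Iio m) →
        (∀ β < (Order.succ κ).ord, ∃ γ < (Order.succ κ).ord, β < γ ∧ (H γ).Nonempty) →
        ∃ F : Ordinal.{0} → Ordinal.{0} → Set Ordinal.{0}, ∀ β < (Order.succ κ).ord,
          ∀ᶠ i in (U : Filter Ordinal.{0}), H β = F i (G β i) := by
  obtain ⟨C, hCC⟩ := hsq
  have hκ0 : ℵ₀ ≤ κ := (hδ0.trans hδκ).le
  set K := (Order.succ κ).ord with hKdef
  have hC : Sq C K := fun α hα hl => ⟨(hCC α hα hl).1, (hCC α hα hl).2.1, (hCC α hα hl).2.2.1,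
    (hCC α hα hl).2.2.2.2⟩
  have hν0 : max δ m.card < κ := max_lt hδκ hmκ
  obtain ⟨v, hv1, hv2, hv3, hv4, hv5⟩ := W590.fr_exists_v δ κ hδ0 hδκ hcof (max δ m.card) hν0
  have hvmono : Monotone v := fun i j hij => hv2 i j hij
  have hvinf : ∀ i, ℵ₀ ≤ v i := fun i => (hδ0.le.trans (le_max_left _ _)).trans (hv1 i)
  have hKlim : IsSuccLimit K := Cardinal.isSuccLimit_ord (hκ0.trans (Order.le_succ κ))
  have hK : ∀ β < K, succ β < K := fun β hβ => hKlim.succ_lt hβ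
  have hD : ∀ β < K, ∀ x < β, ∃ i < δ.ord, DD C v i β x := by
    refine exists_inD hC (fun i => Cardinal.lift.{1} (v i))
      (fun i j hij => Cardinal.lift_le.mpr (hvmono hij)) δ.ord ?_ ?_
    · rw [Cardinal.lt_ord]; simpa using (Cardinal.aleph0_pos.trans hδ0)
    · intro β hβ hl c hc
      obtain ⟨e⟩ := (hCC β hβ hl).2.2.2.1
      have h1 : (e ⟨c, hc⟩ : Ordinal.{0}) < κ.ord := (e ⟨c, hc⟩).2
      have h2 : #(↥(C β ∩ Iio c)) ≤ Cardinal.lift.{1} (e ⟨c, hc⟩ : Ordinal.{0}).card := by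
        rw [← Cardinal.mk_Iio_ordinal]
        refine Cardinal.mk_le_of_injective (f := fun y => ⟨(e ⟨y.1, y.2.1⟩ : Ordinal.{0}), ?_⟩) ?_
        · have : (⟨y.1, y.2.1⟩ : C β) < ⟨c, hc⟩ := y.2.2
          exact e.strictMono this
        · intro a b hab
          have h3 := congrArg Subtype.val hab
          have h4 := e.injective (Subtype.ext h3)
          exact Subtype.ext (Subtype.mk.inj h4)
      obtain ⟨i, hi, h3⟩ := hv5 (e ⟨c, hc⟩ : Ordinal.{0}).card (Cardinal.lt_ord.mp h1)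
      exact ⟨i, hi, h2.trans_lt (Cardinal.lift_lt.mpr h3)⟩
  have hcard : ∀ h : Ordinal.{0} → Ordinal.{0},
      (∀ᶠ i in (U : Filter Ordinal.{0}), (h i).card ≤ v i) → ρ h < K :=
    fun h hh => W590.fr_card_rho δ κ U hδ0 hδU hnp hcomp hnorm hδκ hpow v hv3 hv4 ρ hρ hρ' h hh
  refine ⟨gg C v, ?_, ?_⟩
  · intro β hβ i hi
    rw [Cardinal.lt_ord]
    exact (card_rk_le hC (v i) (hvinf i) hβ).trans_lt (hv3 i hi)
  · intro H hH hne
    exact main_lemma (δ := δ) (κ := κ) hδU (ult_ge δ U hnp hcomp) hρ hρ' K hK hC hvmono hvinf hD hcard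
      m hm (fun i => (le_max_right _ _).trans (hv1 i)) H hH hne hno

end W590F
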