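import Mathlib
import Pool.Agent.W785.DF.Stubs
import Pool.Agent.H772R2.NSR.Ode

/-!
Existence of a smooth solution of the Galerkin system.
-/

open MeasureTheory Set
open scoped ContDiff InnerProductSpace NNReal

namespace Pool.Agent.W590.GO

open Pool.Agent.W785.DF
open H459R3.NS (V K3)

/-! ### algebra of one frequency -/

theorem cj_apply (v : E3) (j : Fin 3) : cj v j = star (v j) := rfl

theorem cj_add (v w : E3) : cj (v + w) = cj v + cj w := by
  ext j; simp [cj_apply]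

theorem cj_sub (v w : E3) : cj (v - w) = cj v - cj w := by
  ext j; simp [cj_apply]

theorem cj_neg (v : E3) : cj (-v) = -cj v := by
  ext j; simp [cj_apply]

theorem cj_smul (c : ℂ) (v : E3) : cj (c • v) = star c • cj v := by
  ext j; simp [cj_apply]

theorem cj_rsmul (c : ℝ) (v : E3) : cj (c • v) = c • cj v := by
  ext j; simp [cj_apply]

theorem cj_zero : cj 0 = 0 := by
  ext j; simp [cj_apply]

theorem cj_sum {ι : Type*} (s : Finset ι) (f : ι → E3) :
    cj (∑ i ∈ s, f i) = ∑ i ∈ s, cj (f i) := by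
  classical
  induction s using Finset.induction_on with
  | empty => simp [cj_zero]
  | insert a s ha ih => rw [Finset.sum_insert ha, Finset.sum_insert ha, cj_add, ih]

theorem dk_add (k : K3) (v w : E3) : dk k (v + w) = dk k v + dk k w := by
  simp [dk, mul_add, Finset.sum_add_distrib]

theorem dk_sub (k : K3) (v w : E3) : dk k (v - w) = dk k v - dk k w := by
  simp [dk, mul_sub, Finset.sum_sub_distrib]

theorem dk_neg (k : K3) (v : E3) : dk k (-v) = -dk k v := by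
  simp [dk]

theorem dk_smul (k : K3) (c : ℂ) (v : E3) : dk k (c • v) = c * dk k v := by
  simp only [dk, Finset.mul_sum, PiLp.smul_apply, smul_eq_mul]
  exact Finset.sum_congr rfl fun j _ => by ring

theorem dk_rsmul (k : K3) (c : ℝ) (v : E3) : dk k (c • v) = c * dk k v := by
  simp only [dk, Finset.mul_sum, PiLp.smul_apply, Complex.real_smul]
  exact Finset.sum_congr rfl fun j _ => by ring

theorem dk_zero (k : K3) : dk k 0 = 0 := by simp [dk]

theorem dk_negk (k : K3) (v : E3) : dk (-k) v = -dk k v := by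
  simp [dk]

theorem star_dk (k : K3) (v : E3) : star (dk k v) = dk k (cj v) := by
  simp [dk, cj_apply]

theorem dk_kv (k : K3) : dk k (kv k) = (W785.DF.sq k : ℂ) := by
  simp [dk, kv, W785.DF.sq, pow_two]

theorem sqk_neg (k : K3) : W785.DF.sq (-k) = W785.DF.sq k := by simp [W785.DF.sq]

theorem kv_neg (k : K3) : kv (-k) = -kv k := by
  ext j; simp [kv]

theorem cj_kv (k : K3) : cj (kv k) = kv k := by
  ext j; simp [kv, cj_apply]

theorem one_le_sq {k : K3} (hk : k ≠ 0) : 1 ≤ W785.DF.sq k := by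
  obtain ⟨j, hj⟩ : ∃ j, k j ≠ 0 := by
    by_contra h
    push Not at h
    exact hk (funext h)
  have h1 : (1 : ℝ) ≤ (k j : ℝ) ^ 2 := by
    have : (1 : ℤ) ≤ k j ^ 2 := by
      have := pow_pos (abs_pos.mpr hj) 2
      rw [sq_abs] at this
      omega
    exact_mod_cast this
  refine h1.trans ?_
  exact Finset.single_le_sum (f := fun j => (k j : ℝ) ^ 2) (fun i _ => sq_nonneg _)
    (Finset.mem_univ j)

theorem dk_Pk {k : K3} (hk : k ≠ 0) (v : E3) : dk k (Pk k v) = 0 := by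
  have h : (W785.DF.sq k : ℂ) ≠ 0 := by
    have := one_le_sq hk
    exact_mod_cast (by linarith : (0 : ℝ) < W785.DF.sq k).ne'
  unfold Pk
  rw [dk_sub, dk_smul, dk_kv, div_mul_cancel₀ _ h, sub_self]

theorem Pk_neg_cj (k : K3) (v : E3) : Pk (-k) (cj v) = cj (Pk k v) := by
  unfold Pk
  have e : star (dk k v / (W785.DF.sq k : ℂ)) = dk k (cj v) / (W785.DF.sq k : ℂ) := by
    rw [← star_dk]; simp
  rw [cj_sub, cj_smul, cj_kv, kv_neg, dk_negk, sqk_neg, e]
  simp [neg_div]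

/-- the real inner product -/
noncomputable def ip (v w : E3) : ℝ := (⟪v, w⟫_ℂ).re

theorem inner_kv (k : K3) (w : E3) : ⟪kv k, w⟫_ℂ = dk k w := by
  rw [PiLp.inner_apply]
  unfold dk
  refine Finset.sum_congr rfl fun j _ => ?_
  simp [kv, mul_comm]

theorem inner_Pk {k : K3} {w : E3} (hw : dk k w = 0) (v : E3) : ⟪Pk k v, w⟫_ℂ = ⟪v, w⟫_ℂ := by
  unfold Pk
  rw [inner_sub_left, inner_smul_left, inner_kv, hw, mul_zero, sub_zero]

/-! ### the space -/

abbrev FS (S : Finset K3) := PiLp 2 (fun _ : S => E3)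

/-- extension by zero -/
noncomputable def ext (S : Finset K3) (x : FS S) (k : K3) : E3 := if h : k ∈ S then x ⟨k, h⟩ else 0

theorem ext_mem {S : Finset K3} (x : FS S) {k : K3} (h : k ∈ S) : ext S x k = x ⟨k, h⟩ := by
  simp [ext, h]

theorem ext_not_mem {S : Finset K3} (x : FS S) {k : K3} (h : k ∉ S) : ext S x k = 0 := by
  simp [ext, h]

theorem ext_add {S : Finset K3} (x y : FS S) (k : K3) :
    ext S (x + y) k = ext S x k + ext S y k := by
  by_cases h : k ∈ S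
  · simp [ext_mem _ h]
  · simp [ext_not_mem _ h]

theorem ext_smul {S : Finset K3} (c : ℝ) (x : FS S) (k : K3) :
    ext S (c • x) k = c • ext S x k := by
  by_cases h : k ∈ S
  · simp [ext_mem _ h]
  · simp [ext_not_mem _ h]

theorem ext_zero {S : Finset K3} (k : K3) :
    ext S (0 : FS S) k = 0 := by
  by_cases h : k ∈ S
  · simp [ext_mem _ h]
  · simp [ext_not_mem _ h]

/-- real divergence free families -/
noncomputable def W (S : Finset K3) : Submodule ℝ (FS S) where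
  carrier := {x | (∀ k, ext S x (-k) = cj (ext S x k)) ∧ ∀ k, dk k (ext S x k) = 0}
  add_mem' := by
    rintro x y ⟨hx1, hx2⟩ ⟨hy1, hy2⟩
    refine ⟨fun k => ?_, fun k => ?_⟩
    · rw [ext_add, ext_add, cj_add, hx1, hy1]
    · rw [ext_add, dk_add, hx2, hy2, add_zero]
  zero_mem' := by
    refine ⟨fun k => ?_, fun k => ?_⟩
    · rw [ext_zero, ext_zero, cj_zero]
    · rw [ext_zero, dk_zero]
  smul_mem' := by
    rintro c x ⟨hx1, hx2⟩
    refine ⟨fun k => ?_, fun k => ?_⟩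
    · rw [ext_smul, ext_smul, cj_rsmul, hx1]
    · rw [ext_smul, dk_rsmul, hx2, mul_zero]

theorem fld_of_mem {S : Finset K3} {x : FS S} (hx : x ∈ W S) : Fld S (ext S x) :=
  ⟨fun _ h => ext_not_mem x h, hx.1, hx.2⟩

/-! ### the vector field -/

variable (S : Finset K3) (ν c : ℝ) (mm : ℝ → E3) (ψ : ℝ → K3 → E3)

/-- the right hand side -/
noncomputable def rhs (t : ℝ) (a : K3 → E3) (k : K3) : E3 :=
  -((2 * Real.pi * Complex.I * dk k (mm t)) • a k) - Pk k (Nl S a k)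
      - (((ν + mu c (Y2 S a)) * (4 * Real.pi ^ 2 * W785.DF.sq k) : ℝ) : ℂ) • a k
      + Pk k (ψ t k)

/-- the right hand side as an element of the space of families -/
noncomputable def G (p : ℝ × W S) : FS S :=
  WithLp.toLp 2 fun k : S => rhs S ν c mm ψ p.1 (ext S p.2) k

theorem ext_G (p : ℝ × W S) {k : K3} (hk : k ∈ S) :
    ext S (G S ν c mm ψ p) k = rhs S ν c mm ψ p.1 (ext S p.2) k := by
  rw [ext_mem _ hk]; rfl

variable {S ν c mm ψ}

theorem Nl_neg (hS : Fr S) {a : K3 → E3} (ha : ∀ k, a (-k) = cj (a k)) (k : K3) :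
    Nl S a (-k) = cj (Nl S a k) := by
  unfold Nl
  rw [cj_sum]
  refine Finset.sum_bij' (fun l _ => -l) (fun l _ => -l) (fun l hl => hS.neg l hl)
    (fun l hl => hS.neg l hl) (fun l _ => neg_neg l) (fun l _ => neg_neg l) ?_
  intro l hl
  have e1 : -k - l = -(k - -l) := by abel
  have e2 : a l = cj (a (-l)) := by rw [← ha, neg_neg]
  rw [e1, ha (k - -l), cj_smul, e2, dk_negk, ← star_dk]
  congr 1
  simp only [star_mul', Complex.star_def, Complex.conj_I, Complex.conj_ofReal, map_ofNat]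
  ring

theorem G_mem (hS : Fr S) (hm : ∀ t, cj (mm t) = mm t) (hψ : ∀ t k, ψ t (-k) = cj (ψ t k))
    (p : ℝ × W S) : G S ν c mm ψ p ∈ W S := by
  obtain ⟨t, x, hx1, hx2⟩ := p
  have key : ∀ k ∈ S, rhs S ν c mm ψ t (ext S x) (-k) = cj (rhs S ν c mm ψ t (ext S x) k) := by
    intro k hk
    unfold rhs
    rw [cj_add, cj_sub, cj_sub, cj_neg, cj_smul, cj_smul, Nl_neg hS hx1, Pk_neg_cj, hψ, Pk_neg_cj,
      hx1, sqk_neg, dk_negk]
    congr 3
    · congr 2
      have := star_dk k (mm t)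
      rw [hm] at this
      simp only [star_mul', this, Complex.star_def, Complex.conj_I, Complex.conj_ofReal, map_ofNat]
      ring
    · simp
  refine ⟨fun k => ?_, fun k => ?_⟩
  · by_cases hk : k ∈ S
    · rw [ext_G _ _ _ _ _ _ hk, ext_G _ _ _ _ _ _ (hS.neg k hk)]
      exact key k hk
    · have hk' : -k ∉ S := fun h => hk (by simpa using hS.neg _ h)
      rw [ext_not_mem _ hk, ext_not_mem _ hk', cj_zero]
  · by_cases hk : k ∈ S
    · have hk0 : k ≠ 0 := fun h => hS.zero (h ▸ hk)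
      rw [ext_G _ _ _ _ _ _ hk]
      unfold rhs
      rw [dk_add, dk_sub, dk_sub, dk_neg, dk_smul, dk_smul, hx2, dk_Pk hk0, dk_Pk hk0]
      simp
    · rw [ext_not_mem _ hk, dk_zero]

theorem contDiff_ext (k : K3) : ContDiff ℝ ∞ (fun p : ℝ × W S => ext S (p.2 : FS S) k) := by
  by_cases hk : k ∈ S
  · simp only [ext_mem _ hk]
    have h1 : ContDiff ℝ ∞ (fun p : ℝ × W S => (p.2 : FS S)) :=
      (W S).subtypeL.contDiff.comp contDiff_snd
    exact (contDiff_piLp 2).mp h1 ⟨k, hk⟩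
  · simp only [ext_not_mem _ hk]
    exact contDiff_const

theorem contDiff_dk {E : Type*} [NormedAddCommGroup E] [NormedSpace ℝ E] {f : E → E3}
    (hf : ContDiff ℝ ∞ f) (k : K3) : ContDiff ℝ ∞ (fun p => dk k (f p)) := by
  unfold dk
  refine ContDiff.sum fun j _ => ?_
  exact contDiff_const.mul ((contDiff_piLp 2).mp hf j)

theorem contDiff_Pk {E : Type*} [NormedAddCommGroup E] [NormedSpace ℝ E] {f : E → E3}
    (hf : ContDiff ℝ ∞ f) (k : K3) : ContDiff ℝ ∞ (fun p => Pk k (f p)) := by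
  unfold Pk
  refine hf.sub ?_
  exact ContDiff.fun_smul ((contDiff_dk hf k).div_const _) contDiff_const

theorem Y2_nonneg (a : K3 → E3) : 0 ≤ Y2 S a :=
  Finset.sum_nonneg fun _ _ => mul_nonneg (Finset.sum_nonneg fun _ _ => sq_nonneg _) (sq_nonneg _)

theorem contDiff_Y2 : ContDiff ℝ ∞ (fun p : ℝ × W S => Y2 S (ext S (p.2 : FS S))) := by
  unfold Y2
  refine ContDiff.sum fun _ _ => ?_
  exact contDiff_const.mul ((contDiff_ext _).norm_sq ℝ)

theorem contDiff_mu : ContDiff ℝ ∞ (fun p : ℝ × W S => mu c (Y2 S (ext S (p.2 : FS S)))) := by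
  unfold mu
  refine contDiff_const.mul (contDiff_Y2.mul ?_)
  refine ContDiff.rpow_const_of_ne (contDiff_const.add contDiff_Y2) ?_
  intro p
  have := Y2_nonneg (S := S) (ext S (p.2 : FS S))
  positivity

theorem contDiff_Nl (k : K3) : ContDiff ℝ ∞ (fun p : ℝ × W S => Nl S (ext S (p.2 : FS S)) k) := by
  unfold Nl
  refine ContDiff.sum fun l _ => ?_
  refine ContDiff.fun_smul ?_ (contDiff_ext _)
  exact contDiff_const.mul (contDiff_dk (contDiff_ext l) _)

theorem contDiff_G (hm : ContDiff ℝ ∞ mm) (hψ : ∀ k, ContDiff ℝ ∞ (fun t => ψ t k)) :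
    ContDiff ℝ ∞ (G S ν c mm ψ) := by
  refine (contDiff_piLp 2).mpr fun k => ?_
  show ContDiff ℝ ∞ (fun p : ℝ × W S => rhs S ν c mm ψ p.1 (ext S (p.2 : FS S)) (k : K3))
  unfold rhs
  refine ContDiff.add (ContDiff.sub (ContDiff.sub (ContDiff.neg ?_) ?_) ?_) ?_
  · refine ContDiff.fun_smul ?_ (contDiff_ext _)
    exact contDiff_const.mul (contDiff_dk (hm.comp contDiff_fst) _)
  · exact contDiff_Pk (contDiff_Nl _) _
  · refine ContDiff.fun_smul ?_ (contDiff_ext _)
    refine Complex.ofRealCLM.contDiff.comp ?_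
    exact (contDiff_const.add contDiff_mu).mul contDiff_const
  · exact contDiff_Pk ((hψ k).comp contDiff_fst) _


/-! ### the energy estimate -/

theorem inner_rhs_le (hν : 0 < ν) (hc : 0 < c) (hm : ∀ t, cj (mm t) = mm t) {t : ℝ}
    {a : K3 → E3} {k : K3} (hk : k ≠ 0) (ha : dk k (a k) = 0) :
    (⟪rhs S ν c mm ψ t a k, a k⟫_ℂ).re
      ≤ -(⟪a k, Nl S a k⟫_ℂ).re + ‖ψ t k‖ ^ 2 / (4 * (4 * Real.pi ^ 2 * ν)) := by
  unfold rhs
  rw [inner_add_left, inner_sub_left, inner_sub_left, inner_neg_left, inner_smul_left,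
    inner_Pk ha, inner_Pk ha, inner_smul_left]
  have hreal : star (dk k (mm t)) = dk k (mm t) := by rw [star_dk, hm]
  have e1 : (-((starRingEnd ℂ) (2 * Real.pi * Complex.I * dk k (mm t)) * ⟪a k, a k⟫_ℂ)).re = 0 := by
    have h2 : (starRingEnd ℂ) (dk k (mm t)) = dk k (mm t) := hreal
    obtain ⟨r, hr⟩ : ∃ r : ℝ, dk k (mm t) = r := Complex.conj_eq_iff_real.mp h2
    rw [hr, inner_self_eq_norm_sq_to_K]
    simp [Complex.mul_re, Complex.mul_im, pow_two]
  have e2 : (⟪Nl S a k, a k⟫_ℂ).re = (⟪a k, Nl S a k⟫_ℂ).re := by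
    rw [← inner_conj_symm, Complex.conj_re]
  have e3 : ((starRingEnd ℂ) (((ν + mu c (Y2 S a)) * (4 * Real.pi ^ 2 * W785.DF.sq k) : ℝ) : ℂ)
      * ⟪a k, a k⟫_ℂ).re = ((ν + mu c (Y2 S a)) * (4 * Real.pi ^ 2 * W785.DF.sq k)) * ‖a k‖ ^ 2 := by
    rw [Complex.conj_ofReal, inner_self_eq_norm_sq_to_K]
    have : ((‖a k‖ : ℂ)) ^ 2 = ((‖a k‖ ^ 2 : ℝ) : ℂ) := by push_cast; rfl
    erw [this]
    rw [← Complex.ofReal_mul, Complex.ofReal_re]
  have e4 : (⟪ψ t k, a k⟫_ℂ).re ≤ ‖ψ t k‖ * ‖a k‖ :=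
    (Complex.re_le_norm _).trans (norm_inner_le_norm _ _)
  rw [Complex.add_re, Complex.sub_re, Complex.sub_re, e1, e2, e3]
  have hmu : 0 ≤ mu c (Y2 S a) := by
    unfold mu
    have := Y2_nonneg (S := S) a
    positivity
  have hs := one_le_sq hk
  have hpi : 0 < Real.pi ^ 2 := by positivity
  have e5 : (4 * Real.pi ^ 2 * ν) * ‖a k‖ ^ 2
      ≤ ((ν + mu c (Y2 S a)) * (4 * Real.pi ^ 2 * W785.DF.sq k)) * ‖a k‖ ^ 2 := by
    have : 4 * Real.pi ^ 2 * ν ≤ (ν + mu c (Y2 S a)) * (4 * Real.pi ^ 2 * W785.DF.sq k) := by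
      calc 4 * Real.pi ^ 2 * ν = ν * (4 * Real.pi ^ 2 * 1) := by ring
        _ ≤ (ν + mu c (Y2 S a)) * (4 * Real.pi ^ 2 * W785.DF.sq k) := by
            gcongr
            linarith
    gcongr
  set m : ℝ := 4 * Real.pi ^ 2 * ν with hmdef
  have hm0 : 0 < m := by positivity
  have e6 : ‖ψ t k‖ * ‖a k‖ - m * ‖a k‖ ^ 2 ≤ ‖ψ t k‖ ^ 2 / (4 * m) := by
    rw [le_div_iff₀ (by positivity)]
    nlinarith [sq_nonneg (‖ψ t k‖ - 2 * m * ‖a k‖)]
  linarith

theorem inner_G_le (henergy : S_energy) (hS : Fr S) (hν : 0 < ν) (hc : 0 < c)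
    (hm : ∀ t, cj (mm t) = mm t) (t : ℝ) (x : W S) :
    ⟪G S ν c mm ψ (t, x), (x : FS S)⟫_ℝ
      ≤ ∑ k ∈ S, ‖ψ t k‖ ^ 2 / (4 * (4 * Real.pi ^ 2 * ν)) := by
  have h1 : ⟪G S ν c mm ψ (t, x), (x : FS S)⟫_ℝ
      = ∑ k ∈ S, (⟪rhs S ν c mm ψ t (ext S x) k, ext S x k⟫_ℂ).re := by
    rw [PiLp.inner_apply, ← Finset.sum_coe_sort S]
    refine Finset.sum_congr rfl fun k _ => ?_
    rw [ext_mem (x : FS S) k.2]
    rfl
  have hF : Fld S (ext S (x : FS S)) := fld_of_mem x.2
  have h2 := henergy S hS _ hF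
  rw [h1]
  calc ∑ k ∈ S, (⟪rhs S ν c mm ψ t (ext S x) k, ext S x k⟫_ℂ).re
      ≤ ∑ k ∈ S, (-(⟪ext S x k, Nl S (ext S x) k⟫_ℂ).re
          + ‖ψ t k‖ ^ 2 / (4 * (4 * Real.pi ^ 2 * ν))) := by
        refine Finset.sum_le_sum fun k hk => ?_
        exact inner_rhs_le hν hc hm (fun h => hS.zero (h ▸ hk)) (hF.div k)
    _ = ∑ k ∈ S, ‖ψ t k‖ ^ 2 / (4 * (4 * Real.pi ^ 2 * ν)) := by
        rw [Finset.sum_add_distrib, Finset.sum_neg_distrib, h2, neg_zero, zero_add]

/-! ### smoothness of solutions of ordinary differential equations -/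

theorem contDiffOn_of_ode {E : Type*} [NormedAddCommGroup E] [NormedSpace ℝ E] {T : ℝ} (hT : 0 < T)
    {X : ℝ × E → E} (hX : ContDiff ℝ ∞ X) {x : ℝ → E}
    (hx : ∀ t ∈ Icc 0 T, HasDerivWithinAt x (X (t, x t)) (Icc 0 T) t) :
    ContDiffOn ℝ ∞ x (Icc 0 T) := by
  have hu : UniqueDiffOn ℝ (Icc 0 T) := uniqueDiffOn_Icc hT
  have hd : DifferentiableOn ℝ x (Icc 0 T) := fun t ht => (hx t ht).differentiableWithinAt
  have key : ∀ n : ℕ, ContDiffOn ℝ n x (Icc 0 T) := by
    intro n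
    induction n with
    | zero => exact contDiffOn_zero.mpr hd.continuousOn
    | succ n ih =>
      have : ((n + 1 : ℕ) : WithTop ℕ∞) = (n : WithTop ℕ∞) + 1 := by push_cast; rfl
      rw [this, contDiffOn_succ_iff_derivWithin hu]
      refine ⟨hd, by simp, ?_⟩
      have h1 : ContDiffOn ℝ n (fun t => X (t, x t)) (Icc 0 T) := by
        have hXn : ContDiff ℝ n X := hX.of_le (by exact_mod_cast le_top)
        exact hXn.comp_contDiffOn (contDiffOn_id.prodMk ih)
      exact h1.congr fun t ht => (hx t ht).derivWithin (hu t ht)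
  exact contDiffOn_infty.mpr key

theorem lip_of_contDiff {E : Type*} [NormedAddCommGroup E] [NormedSpace ℝ E] [ProperSpace E]
    {X : ℝ × E → E} (hX : ContDiff ℝ ∞ X) (T R : ℝ) :
    ∃ C : ℝ≥0, ∀ t ∈ Icc 0 T, LipschitzOnWith C (fun y => X (t, y)) (Metric.closedBall 0 R) := by
  have hK : IsCompact (Icc 0 T ×ˢ Metric.closedBall (0 : E) R) :=
    isCompact_Icc.prod (isCompact_closedBall _ _)
  have hcf : ContinuousOn (fun p => ‖fderiv ℝ X p‖)
      (Icc 0 T ×ˢ Metric.closedBall (0 : E) R) :=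
    (Continuous.norm (hX.continuous_fderiv (by simp))).continuousOn
  obtain ⟨C, hC'⟩ := hK.exists_bound_of_continuousOn hcf
  have hC : ∀ p ∈ Icc 0 T ×ˢ Metric.closedBall (0 : E) R, ‖fderiv ℝ X p‖ ≤ C := fun p hp =>
    (le_abs_self _).trans (hC' p hp)
  have hlip : LipschitzOnWith (Real.toNNReal C) X
      (Icc 0 T ×ˢ Metric.closedBall (0 : E) R) := by
    refine Convex.lipschitzOnWith_of_nnnorm_fderiv_le (𝕜 := ℝ) ?_ ?_ ?_
    · intro p _
      exact (hX.differentiable (by simp)).differentiableAt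
    · intro p hp
      have := hC p hp
      rw [← NNReal.coe_le_coe, coe_nnnorm]
      exact this.trans (Real.le_coe_toNNReal C)
    · exact (convex_Icc 0 T).prod (convex_closedBall _ _)
  refine ⟨Real.toNNReal C, fun t ht => ?_⟩
  refine LipschitzOnWith.of_dist_le_mul fun y hy z hz => ?_
  have := hlip.dist_le_mul (t, y) ⟨ht, hy⟩ (t, z) ⟨ht, hz⟩
  simpa [Prod.dist_eq] using this

theorem main (henergy : S_energy) : S_ode := by
  intro S hS ν c T hν hc hT mm hmm hm ψ hψ hψs a0 ha0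
  classical
  let P : FS S →L[ℝ] W S := (W S).orthogonalProjectionOnto
  let X : ℝ × W S → W S := fun p => P (G S ν c mm ψ p)
  have hX : ContDiff ℝ ∞ X := P.contDiff.comp (contDiff_G hmm hψ)
  have hXG : ∀ p, (X p : FS S) = G S ν c mm ψ p := by
    intro p
    have := (W S).starProjection_eq_self_iff.mpr (G_mem (ν := ν) (c := c) hS hm hψs p)
    exact this
  -- the initial value
  let y0 : FS S := WithLp.toLp 2 fun k : S => a0 k
  have hy0 : ext S y0 = a0 := by
    funext k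
    by_cases hk : k ∈ S
    · rw [ext_mem _ hk]
    · rw [ext_not_mem _ hk, ha0.supp k hk]
  have hy0W : y0 ∈ W S := by
    refine ⟨fun k => ?_, fun k => ?_⟩
    · rw [hy0]; exact ha0.sym k
    · rw [hy0]; exact ha0.div k
  -- the bound of the force
  obtain ⟨B, hB⟩ : ∃ B : ℝ, ∀ t ∈ Icc 0 T,
      ∑ k ∈ S, ‖ψ t k‖ ^ 2 / (4 * (4 * Real.pi ^ 2 * ν)) ≤ B := by
    have hcont : ContinuousOn (fun t => ∑ k ∈ S, ‖ψ t k‖ ^ 2 / (4 * (4 * Real.pi ^ 2 * ν)))
        (Icc 0 T) := by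
      refine Continuous.continuousOn ?_
      refine continuous_finsetSum _ fun k _ => ?_
      exact (((hψ k).continuous).norm.pow 2).div_const _
    obtain ⟨B, h⟩ := (isCompact_Icc.image_of_continuousOn hcont).isBounded.exists_norm_le
    exact ⟨B, fun t ht => (le_abs_self _).trans (h _ ⟨t, ht, rfl⟩)⟩
  have hB0 : 0 ≤ B := le_trans (Finset.sum_nonneg fun k _ => by positivity)
    (hB 0 ⟨le_rfl, hT.le⟩)
  obtain ⟨x, hx0, hx, -⟩ := H772R2.NSR.exists_global (fun t y => X (t, y)) hT.le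
    (fun R => lip_of_contDiff hX T R)
    (by
      intro y
      exact (hX.continuous.comp (continuous_id.prodMk continuous_const)).continuousOn)
    (⟨y0, hy0W⟩ : W S) hB0
    (by
      intro t ht y
      have h1 : ⟪X (t, y), y⟫_ℝ = ⟪G S ν c mm ψ (t, y), (y : FS S)⟫_ℝ := by
        rw [← hXG]; rfl
      rw [h1]
      exact (inner_G_le henergy hS hν hc hm t y).trans (hB t ht))
  have hsm : ContDiffOn ℝ ∞ x (Icc 0 T) := contDiffOn_of_ode hT hX hx
  refine ⟨fun t k => ext S (x t : FS S) k, ?_, ?_, ?_, ?_⟩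
  · intro t _
    exact fld_of_mem (x t).2
  · intro k
    by_cases hk : k ∈ S
    · simp only [ext_mem _ hk]
      have h1 : ContDiffOn ℝ ∞ (fun t => (x t : FS S)) (Icc 0 T) :=
        (W S).subtypeL.contDiff.comp_contDiffOn hsm
      exact (contDiffOn_piLp 2).mp h1 ⟨k, hk⟩
    · simp only [ext_not_mem _ hk]
      exact contDiffOn_const
  · intro t ht k hk
    have h1 : HasDerivWithinAt (fun t => (x t : FS S)) (G S ν c mm ψ (t, x t)) (Icc 0 T) t := by
      rw [← hXG]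
      exact ((W S).subtypeL.hasFDerivAt.comp_hasDerivWithinAt t (hx t ht))
    have h2 := (PiLp.proj (𝕜 := ℝ) 2 (fun _ : S => E3) ⟨k, hk⟩).hasFDerivAt.comp_hasDerivWithinAt t h1
    simp only [ext_mem _ hk]
    have e : (fun s => (x s : FS S) ⟨k, hk⟩) = fun s => ext S (x s : FS S) k := by
      funext s; rw [ext_mem _ hk]
    have e2 : (x t : FS S) ⟨k, hk⟩ = ext S (x t : FS S) k := by rw [ext_mem _ hk]
    rw [e2]
    exact h2
  · funext k
    show ext S (x 0 : FS S) k = a0 k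
    rw [hx0]
    exact congrFun hy0 k

end Pool.Agent.W590.GO
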